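import Pool.Agent.N855.P17.Sys
import Pool.Agent.N855.P15.AA5
import Pool.Agent.N969.P17G.Defs2

/-!
# P17: the criteria (helper816): the symmetric system in terms of divisors and symbols
-/

set_option autoImplicit false

namespace Pool.Agent.N816.P17.Crit

open Finset
open Pool.Agent.N969.P15 (Qc Qe Ev)
open Pool.Agent.N972.P17
open Pool.Agent.N855.P15 (sg sg_add sg_inj sg_sum Qj Qc_iff)
open Pool.Agent.N855.P17 (Ts Lm)

/-! ### linear algebra -/

theorem z2 (a : ZMod 2) : a = 0 ∨ a = 1 := by revert a; decide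

theorem ker_iff {ι : Type} [Fintype ι] [DecidableEq ι] (M : Matrix ι ι (ZMod 2)) (v : ι → ZMod 2)
    (hv : v ≠ 0) (h : M.mulVec v = 0) :
    (∀ y, M.mulVec y = 0 → y = 0 ∨ y = v) ↔ M.rank + 1 = Fintype.card ι := by
  have e1 := LinearMap.finrank_range_add_finrank_ker M.mulVecLin
  rw [Module.finrank_fintype_fun_eq_card] at e1
  have e2 : M.rank = Module.finrank (ZMod 2) (LinearMap.range M.mulVecLin) := rfl
  rw [← e2] at e1
  have hv' : (⟨v, by rw [LinearMap.mem_ker]; exact h⟩ : LinearMap.ker M.mulVecLin) ≠ 0 := by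
    intro h1
    exact hv (congrArg Subtype.val h1)
  have e3 := finrank_eq_one_iff_of_nonzero' (K := ZMod 2) _ hv'
  have e4 : M.rank + 1 = Fintype.card ι ↔
      Module.finrank (ZMod 2) (LinearMap.ker M.mulVecLin) = 1 := by omega
  rw [e4, e3]
  constructor
  · rintro h1 ⟨w, hw⟩
    rcases h1 w (by rw [LinearMap.mem_ker] at hw; exact hw) with h2 | h2
    · refine ⟨0, ?_⟩
      rw [zero_smul]
      exact Subtype.ext h2.symm
    · refine ⟨1, ?_⟩
      rw [one_smul]
      exact Subtype.ext h2.symm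
  · intro h1 y hy
    obtain ⟨c, hc⟩ := h1 ⟨y, by rw [LinearMap.mem_ker]; exact hy⟩
    have hc' : c • v = y := congrArg Subtype.val hc
    rcases z2 c with h2 | h2
    · left; rw [← hc', h2, zero_smul]
    · right; rw [← hc', h2, one_smul]

theorem ker_tr {ι : Type} [Fintype ι] [DecidableEq ι] (M : Matrix ι ι (ZMod 2)) (v w : ι → ZMod 2)
    (hv : v ≠ 0) (h : M.mulVec v = 0) (hw : w ≠ 0) (h' : M.transpose.mulVec w = 0) :
    (∀ y, M.mulVec y = 0 → y = 0 ∨ y = v) ↔ (∀ y, M.transpose.mulVec y = 0 → y = 0 ∨ y = w) := by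
  rw [ker_iff M v hv h, ker_iff M.transpose w hw h', Matrix.rank_transpose]

/-! ### symbols -/

/-- the divisor of a vector -/
def dd (P : Finset ℕ) (x : ℕ → ZMod 2) : ℕ := ∏ q ∈ P.filter (fun q => x q = 1), q

theorem sg_lin (P : Finset ℕ) (f x : ℕ → ZMod 2) :
    sg (∑ q ∈ P, f q * x q) = ∏ q ∈ P.filter (fun q => x q = 1), sg (f q) := by
  rw [sg_sum, prod_filter]
  refine prod_congr rfl fun q _ => ?_
  rcases z2 (x q) with h | h
  · rw [h, mul_zero, if_neg (by decide)]; rfl
  · rw [h, mul_one, if_pos rfl]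

/-- the signed odd number -/
def st (k : ℕ) : ℤ := if k % 4 = 1 then k else -k

theorem st_mul {a b : ℕ} (ha : Odd a) (hb : Odd b) : st (a * b) = st a * st b := by
  have h1 : a % 4 = 1 ∨ a % 4 = 3 := by rw [Nat.odd_iff] at ha; omega
  have h2 : b % 4 = 1 ∨ b % 4 = 3 := by rw [Nat.odd_iff] at hb; omega
  unfold st
  rw [Nat.mul_mod]
  rcases h1 with h1 | h1 <;> rcases h2 with h2 | h2 <;> rw [h1, h2] <;> norm_num

theorem st_prod (s : Finset ℕ) (h : ∀ p ∈ s, Odd p) : ∏ p ∈ s, st p = st (∏ p ∈ s, p) ∧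
    Odd (∏ p ∈ s, p) := by
  classical
  induction s using Finset.induction_on with
  | empty => exact ⟨by simp [st], by simp⟩
  | insert b s hb ih =>
    obtain ⟨i1, i2⟩ := ih fun p hp => h p (mem_insert_of_mem hp)
    have h1 := h b (mem_insert_self b s)
    rw [prod_insert hb, prod_insert hb, i1, st_mul h1 i2]
    exact ⟨rfl, h1.mul i2⟩

theorem js_ne {p q : ℕ} (hp : p.Prime) (hq : q.Prime) (h : p ≠ q) : (q : ℤ).gcd p = 1 := by
  rw [Int.gcd_natCast_natCast]
  exact (Nat.coprime_primes hq hp).2 h.symm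

/-- reciprocity -/
theorem st_rec {p q : ℕ} (hp : Odd p) (hq : Odd q) : jacobiSym (st p) q = jacobiSym q p := by
  have h1 : p % 4 = 1 ∨ p % 4 = 3 := by rw [Nat.odd_iff] at hp; omega
  have h2 : q % 4 = 1 ∨ q % 4 = 3 := by rw [Nat.odd_iff] at hq; omega
  unfold st
  rcases h1 with h1 | h1
  · rw [if_pos h1]
    exact jacobiSym.quadratic_reciprocity_one_mod_four h1 hq
  · rw [if_neg (by omega), jacobiSym.neg _ hq]
    rcases h2 with h2 | h2
    · rw [ZMod.χ₄_nat_one_mod_four h2, one_mul]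
      exact (jacobiSym.quadratic_reciprocity_one_mod_four h2 hp).symm
    · rw [ZMod.χ₄_nat_three_mod_four h2, jacobiSym.quadratic_reciprocity_three_mod_four h1 h2]
      ring

theorem star_odd (n : ℕ) {p : ℕ} (h : p ≠ 2) : star n p = st p := if_neg h

theorem gcd_star {n p q : ℕ} (hp : p.Prime) (hq : q.Prime) (h : p ≠ q) :
    (star n q).gcd p = 1 := by
  have h1 : ∀ k : ℤ, (k = star n q) → k.natAbs ∣ q ^ 3 := by
    intro k hk
    subst hk
    unfold Pool.Agent.N972.P17.star
    by_cases h2 : q = 2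
    · subst h2
      rw [if_pos rfl]
      split_ifs <;> decide
    · rw [if_neg h2]
      split_ifs
      · exact dvd_pow_self q (by norm_num)
      · rw [Int.natAbs_neg]; exact dvd_pow_self q (by norm_num)
  have h2 : Nat.Coprime (q ^ 3) p := Nat.Coprime.pow_left 3 ((Nat.coprime_primes hq hp).2 h.symm)
  exact Nat.Coprime.coprime_dvd_left (h1 _ rfl) h2

theorem sg_ls {n p q : ℕ} (hp : p.Prime) (hq : q.Prime) (h : p ≠ q) (hp2 : p ≠ 2) :
    sg (ls n q p) = jacobiSym (star n q) p := by
  unfold ls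
  rw [if_neg hp2]
  rcases jacobiSym.eq_one_or_neg_one (gcd_star (n := n) hp hq h) with h1 | h1
  · rw [h1]; rfl
  · rw [h1]; rfl

theorem two_sym {p : ℕ} (hp : Odd p) : jacobiSym 2 p = if p % 8 = 1 ∨ p % 8 = 7 then 1 else -1 := by
  rw [jacobiSym.at_two hp, ZMod.χ₈_nat_eq_if_mod_eight, if_neg (by rw [Nat.odd_iff] at hp; omega)]

theorem sg_ls2 {n p : ℕ} (hp : Odd p) (hp2 : p ≠ 2) : sg (ls n p 2) = jacobiSym 2 p := by
  unfold ls
  rw [if_pos rfl, star_odd n hp2, two_sym hp]
  unfold st
  rw [Nat.odd_iff] at hp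
  by_cases h1 : p % 8 = 1 ∨ p % 8 = 7
  · rw [if_pos h1]
    split_ifs with h2 h3 h3
    · rfl
    · omega
    · rfl
    · omega
  · rw [if_neg h1]
    split_ifs with h2 h3 h3
    · omega
    · rfl
    · omega
    · rfl

/-- the entries of a column of the Rédei matrix apart from the diagonal -/
theorem sg_col {n p q : ℕ} (hp : p.Prime) (hq : q.Prime) (h : p ≠ q) (hp2 : p ≠ 2) :
    sg (LL n q p) = jacobiSym q p := by
  unfold LL
  rw [if_neg h.symm]
  have hpo := hp.odd_of_ne_two hp2
  by_cases hq2 : q = 2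
  · subst hq2
    rw [sg_ls2 hpo hp2]; rfl
  · rw [sg_ls hq hp h.symm hq2, star_odd n hp2, st_rec hpo (hq.odd_of_ne_two hq2)]

/-! ### the diagonal -/

/-- `-n` is the product of the prime discriminants -/
def Hn (n : ℕ) : Prop := ∏ r ∈ n.primeFactors, star n r = -(n : ℤ)

theorem star_prod (n : ℕ) (s : Finset ℕ) (h : ∀ p ∈ s, Odd p) :
    ∏ p ∈ s, star n p = st (∏ p ∈ s, p) := by
  rw [← (st_prod s h).1]
  refine prod_congr rfl fun p hp => star_odd n ?_
  rintro rfl
  have := h 2 hp
  revert this; decide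

theorem Hn_odd {n : ℕ} (hs : Squarefree n) (h4 : n % 4 = 3) : Hn n := by
  unfold Hn
  rw [star_prod n _ ?_, Nat.prod_primeFactors_of_squarefree hs]
  · unfold st; rw [if_neg (by omega)]
  · intro p hp
    have h1 := Nat.dvd_of_mem_primeFactors hp
    rcases Nat.even_or_odd p with h | h
    · exfalso
      have : 2 ∣ n := h.two_dvd.trans h1
      omega
    · exact h

theorem Ev_pf {m : ℕ} (h0 : m ≠ 0) : (4 * m).primeFactors = insert 2 m.primeFactors := by
  rw [Nat.primeFactors_mul (by norm_num) h0, show (4 : ℕ) = 2 ^ 2 by norm_num,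
    Nat.primeFactors_prime_pow (by norm_num) Nat.prime_two]
  rfl

theorem Hn_even {n : ℕ} (h : Ev n) : Hn n := by
  obtain ⟨m, rfl, hs, h4⟩ := h
  have h0 : m ≠ 0 := hs.ne_zero
  unfold Hn
  have hodd : ∀ p ∈ ((4 * m).primeFactors).erase 2, Odd p := fun p hp =>
    (Nat.prime_of_mem_primeFactors (mem_of_mem_erase hp)).odd_of_ne_two (ne_of_mem_erase hp)
  have h2 : 2 ∈ (4 * m).primeFactors := by rw [Ev_pf h0]; exact mem_insert_self _ _
  rw [← mul_prod_erase _ _ h2, star_prod _ _ hodd]
  have e0 : ((4 * m).primeFactors).erase 2 = m.primeFactors.erase 2 := by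
    rw [Ev_pf h0, erase_insert_eq_erase]
  rw [e0]
  rcases h4 with h4 | h4
  · have h5 : 2 ∉ m.primeFactors := fun h => by
      have := Nat.dvd_of_mem_primeFactors h
      omega
    rw [erase_eq_of_notMem h5, Nat.prod_primeFactors_of_squarefree hs]
    unfold Pool.Agent.N972.P17.star st
    rw [if_pos rfl, if_pos (by omega), if_pos h4]
    push_cast; ring
  · obtain ⟨k, hk⟩ : ∃ k, m = 2 * k := ⟨m / 2, by omega⟩
    have h5 : 2 ∈ m.primeFactors := Nat.mem_primeFactors.2 ⟨Nat.prime_two, ⟨k, hk⟩, h0⟩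
    have e1 : 2 * ∏ p ∈ m.primeFactors.erase 2, p = m := by
      have := mul_prod_erase m.primeFactors (fun q => q) h5
      rw [Nat.prod_primeFactors_of_squarefree hs] at this
      exact this
    have e2 : ∏ p ∈ m.primeFactors.erase 2, p = k := by omega
    rw [e2]
    unfold Pool.Agent.N972.P17.star st
    rw [if_pos rfl, if_neg (by omega)]
    have h6 : k % 4 = 1 ∨ k % 4 = 3 := by omega
    rcases h6 with h6 | h6
    · rw [if_pos (by omega), if_pos h6, hk]; push_cast; ring
    · rw [if_neg (by omega), if_neg (by omega), hk]; push_cast; ring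

/-- the diagonal of the Rédei matrix -/
theorem sg_diag {n p : ℕ} (h : Hn n) (hp : p ∈ n.primeFactors) (hp2 : p ≠ 2) :
    sg (LL n p p) = jacobiSym ((n / p : ℕ) : ℤ) p := by
  have hp' := Nat.prime_of_mem_primeFactors hp
  have hpo := hp'.odd_of_ne_two hp2
  unfold LL
  rw [if_pos rfl, sg_sum]
  have e1 : ∏ r ∈ n.primeFactors.erase p, sg (ls n r p) =
      jacobiSym (∏ r ∈ n.primeFactors.erase p, star n r) p := by
    rw [Pool.Agent.N855.P15.jac_prod]
    exact prod_congr rfl fun r hr => sg_ls hp'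
      (Nat.prime_of_mem_primeFactors (mem_of_mem_erase hr)) (ne_of_mem_erase hr).symm hp2
  rw [e1]
  unfold Hn at h
  rw [← mul_prod_erase _ _ hp, star_odd n hp2] at h
  obtain ⟨k, hk⟩ := Nat.dvd_of_mem_primeFactors hp
  have dk : n / p = k := by
    conv_lhs => rw [hk]
    exact Nat.mul_div_cancel_left _ hp'.pos
  have hp0 : (p : ℤ) ≠ 0 := by exact_mod_cast hp'.ne_zero
  rw [dk]
  have hnk : (n : ℤ) = p * k := by rw [hk]; push_cast; rfl
  rw [hnk] at h
  unfold st at h
  have h1 : p % 4 = 1 ∨ p % 4 = 3 := by rw [Nat.odd_iff] at hpo; omega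
  rcases h1 with h1 | h1
  · rw [if_pos h1, ← mul_neg] at h
    rw [mul_left_cancel₀ hp0 h, jacobiSym.neg _ hpo, ZMod.χ₄_nat_one_mod_four h1, one_mul]
  · rw [if_neg (by omega), neg_mul, neg_inj] at h
    rw [mul_left_cancel₀ hp0 h]

/-- the symbol of the divisor `d` at `p` -/
def sym (n p d : ℕ) : ℤ := jacobiSym ((if p ∣ d then d / p * (n / p) else d : ℕ) : ℤ) p

theorem jsp {p : ℕ} (s : Finset ℕ) : jacobiSym ((∏ q ∈ s, q : ℕ) : ℤ) p =
    ∏ q ∈ s, jacobiSym q p := by
  rw [Nat.cast_prod, Pool.Agent.N855.P15.jac_prod]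

theorem dvd_dd {P : Finset ℕ} (hP : ∀ q ∈ P, q.Prime) {x : ℕ → ZMod 2} {p : ℕ} (hp : p.Prime) :
    p ∣ dd P x ↔ p ∈ P ∧ x p = 1 := by
  unfold dd
  rw [Prime.dvd_finsetProd_iff hp.prime]
  constructor
  · rintro ⟨q, hq, hpq⟩
    obtain ⟨h1, h2⟩ := mem_filter.1 hq
    have h3 := (Nat.prime_dvd_prime_iff_eq hp (hP q h1)).1 hpq
    rw [h3]
    exact ⟨h1, h2⟩
  · rintro ⟨h1, h2⟩
    exact ⟨p, mem_filter.2 ⟨h1, h2⟩, dvd_rfl⟩

/-- the column form of the Rédei matrix -/
theorem sg_sym {n p : ℕ} (h : Hn n) (hp : p ∈ n.primeFactors) (hp2 : p ≠ 2) (x : ℕ → ZMod 2) :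
    sg (∑ q ∈ n.primeFactors, LL n q p * x q) = sym n p (dd n.primeFactors x) := by
  have hp' := Nat.prime_of_mem_primeFactors hp
  have hP : ∀ q ∈ n.primeFactors, q.Prime := fun q hq => Nat.prime_of_mem_primeFactors hq
  rw [sg_lin]
  unfold sym
  rcases z2 (x p) with h1 | h1
  · rw [if_neg (fun h2 => by
      have := ((dvd_dd hP hp').1 h2).2
      rw [h1] at this
      exact absurd this (by decide))]
    unfold dd
    rw [jsp]
    refine prod_congr rfl fun q hq => ?_
    obtain ⟨h2, h3⟩ := mem_filter.1 hq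
    refine sg_col hp' (hP q h2) ?_ hp2
    rintro rfl
    rw [h1] at h3
    exact absurd h3 (by decide)
  · rw [if_pos ((dvd_dd hP hp').2 ⟨hp, h1⟩)]
    have h2 : p ∈ n.primeFactors.filter (fun q => x q = 1) := mem_filter.2 ⟨hp, h1⟩
    have e1 : dd n.primeFactors x / p =
        ∏ q ∈ (n.primeFactors.filter (fun q => x q = 1)).erase p, q := by
      unfold dd
      rw [← mul_prod_erase _ _ h2]
      exact Nat.mul_div_cancel_left _ hp'.pos
    rw [← mul_prod_erase _ _ h2, sg_diag h hp hp2, Nat.cast_mul, jacobiSym.mul_left, e1, jsp,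
      mul_comm]
    congr 1
    refine prod_congr rfl fun q hq => ?_
    obtain ⟨h3, h4⟩ := mem_filter.1 (mem_of_mem_erase hq)
    exact sg_col hp' (hP q h3) (ne_of_mem_erase hq).symm hp2

theorem row_sum {n p : ℕ} (hp : p ∈ n.primeFactors) : ∑ q ∈ n.primeFactors, LL n p q = 0 :=
  Pool.Agent.N855.P17.Lm_row (fun p q => ls n q p) hp

/-- the row at `2` is the sum of the others -/
theorem col_two {n : ℕ} (x : ℕ → ZMod 2)
    (h : ∀ p ∈ n.primeFactors, p ≠ 2 → ∑ q ∈ n.primeFactors, LL n q p * x q = 0) :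
    ∀ p ∈ n.primeFactors, ∑ q ∈ n.primeFactors, LL n q p * x q = 0 := by
  intro p hp
  by_cases hp2 : p = 2
  · subst hp2
    have h1 : ∑ p ∈ n.primeFactors, ∑ q ∈ n.primeFactors, LL n q p * x q = 0 := by
      rw [sum_comm]
      refine sum_eq_zero fun q hq => ?_
      rw [← sum_mul, row_sum hq, zero_mul]
    rw [← add_sum_erase _ _ hp, sum_eq_zero (s := n.primeFactors.erase 2) fun q hq =>
      h q (mem_of_mem_erase hq) (ne_of_mem_erase hq), add_zero] at h1
    exact h1
  · exact h p hp hp2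

/-! ### the kernels -/

/-- the primes of `n` -/
abbrev PP (n : ℕ) : Type := {p // p ∈ n.primeFactors}

/-- the Rédei matrix -/
def MM (n : ℕ) : Matrix (PP n) (PP n) (ZMod 2) := fun p q => LL n p q

theorem MM_vec (n : ℕ) (x : ℕ → ZMod 2) :
    (MM n).mulVec (fun q : PP n => x q) = 0 ↔
      ∀ p ∈ n.primeFactors, ∑ q ∈ n.primeFactors, LL n p q * x q = 0 := by
  constructor
  · intro h p hp
    have h1 := congrFun h ⟨p, hp⟩
    refine Eq.trans ?_ h1
    exact (Finset.sum_coe_sort n.primeFactors fun q => LL n p q * x q).symm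
  · intro h
    funext p
    rw [Pi.zero_apply, ← h p p.2]
    exact Finset.sum_coe_sort n.primeFactors fun q => LL n p q * x q

theorem MT_vec (n : ℕ) (x : ℕ → ZMod 2) :
    (MM n).transpose.mulVec (fun q : PP n => x q) = 0 ↔
      ∀ p ∈ n.primeFactors, ∑ q ∈ n.primeFactors, LL n q p * x q = 0 := by
  constructor
  · intro h p hp
    have h1 := congrFun h ⟨p, hp⟩
    refine Eq.trans ?_ h1
    exact (Finset.sum_coe_sort n.primeFactors fun q => LL n q p * x q).symm
  · intro h
    funext p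
    rw [Pi.zero_apply, ← h p p.2]
    exact Finset.sum_coe_sort n.primeFactors fun q => LL n q p * x q

theorem ex_ext {n : ℕ} {Q : (PP n → ZMod 2) → Prop} :
    (∀ y, Q y) ↔ ∀ x : ℕ → ZMod 2, Q fun q => x q := by
  classical
  constructor
  · intro h x; exact h _
  · intro h y
    have h1 := h fun p => if h : p ∈ n.primeFactors then y ⟨p, h⟩ else 0
    convert h1 using 1
    funext p
    rw [dif_pos p.2]

/-- the condition on the divisors -/
def Dq (n K : ℕ) : Prop := ∀ d : ℕ, d ∣ ∏ p ∈ n.primeFactors, p →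
  (∀ p ∈ n.primeFactors, p ≠ 2 → sym n p d = 1) → d = 1 ∨ d = K

theorem dd_dvd {n : ℕ} (x : ℕ → ZMod 2) : dd n.primeFactors x ∣ ∏ p ∈ n.primeFactors, p :=
  prod_dvd_prod_of_subset _ _ _ (filter_subset _ _)

theorem dd_surj {n d : ℕ} (hd : d ∣ ∏ p ∈ n.primeFactors, p) :
    dd n.primeFactors (fun p => if p ∣ d then 1 else 0) = d := by
  have hP : ∀ q ∈ n.primeFactors, q.Prime := fun q hq => Nat.prime_of_mem_primeFactors hq
  have hR0 : ∏ p ∈ n.primeFactors, p ≠ 0 := prod_ne_zero_iff.2 fun q hq => (hP q hq).ne_zero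
  have hRs : Squarefree (∏ p ∈ n.primeFactors, p) := by
    have h1 := Nat.primeFactors_prod hP
    rw [Nat.squarefree_iff_prime_squarefree]
    intro p hp h2
    have h3 : (∏ p ∈ n.primeFactors, p).factorization p ≤ 1 := by
      rw [Nat.factorization_prod fun q hq => (hP q hq).ne_zero, Finsupp.finsetSum_apply]
      calc ∑ q ∈ n.primeFactors, q.factorization p
          = ∑ q ∈ n.primeFactors, if q = p then 1 else 0 := by
            refine sum_congr rfl fun q hq => ?_
            rw [(hP q hq).factorization, Finsupp.single_apply]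
        _ ≤ 1 := by
            rw [sum_ite_eq']
            split_ifs <;> norm_num
    have h4 := (hp.pow_dvd_iff_le_factorization hR0 (k := 2)).1 (by rw [sq]; exact h2)
    omega
  have hds := hRs.squarefree_of_dvd hd
  unfold dd
  have h1 : n.primeFactors.filter (fun q => (if q ∣ d then (1 : ZMod 2) else 0) = 1) =
      d.primeFactors := by
    ext p
    simp only [mem_filter, Nat.mem_primeFactors]
    constructor
    · rintro ⟨⟨h1, h2, h3⟩, h4⟩
      refine ⟨h1, ?_, hds.ne_zero⟩
      by_contra h5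
      rw [if_neg h5] at h4
      exact absurd h4 (by decide)
    · rintro ⟨h1, h2, h3⟩
      rw [if_pos h2]
      have h4 : p ∈ (∏ p ∈ n.primeFactors, p).primeFactors :=
        Nat.mem_primeFactors.2 ⟨h1, h2.trans hd, hR0⟩
      rw [Nat.primeFactors_prod hP] at h4
      exact ⟨Nat.mem_primeFactors.1 h4, rfl⟩
  rw [h1, Nat.prod_primeFactors_of_squarefree hds]

theorem sg_one (a : ZMod 2) : sg a = 1 ↔ a = 0 := by revert a; decide

theorem dd_inj {n : ℕ} {x y : ℕ → ZMod 2} (h : dd n.primeFactors x = dd n.primeFactors y) :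
    ∀ p ∈ n.primeFactors, x p = y p := by
  have hP : ∀ q ∈ n.primeFactors, q.Prime := fun q hq => Nat.prime_of_mem_primeFactors hq
  intro p hp
  have h1 := dvd_dd hP (x := x) (hP p hp)
  have h2 := dvd_dd hP (x := y) (hP p hp)
  rw [h, h2] at h1
  have h3 : y p = 1 ↔ x p = 1 := ⟨fun h => (h1.1 ⟨hp, h⟩).2, fun h => (h1.2 ⟨hp, h⟩).2⟩
  have : ∀ a b : ZMod 2, (b = 1 ↔ a = 1) → a = b := by decide
  exact this _ _ h3

theorem kerT_iff {n : ℕ} (h : Hn n) (k : ℕ → ZMod 2) :
    (∀ y, (MM n).transpose.mulVec y = 0 → y = 0 ∨ y = fun q : PP n => k q) ↔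
      Dq n (dd n.primeFactors k) := by
  rw [ex_ext]
  have e1 : ∀ x : ℕ → ZMod 2, (MM n).transpose.mulVec (fun q : PP n => x q) = 0 ↔
      ∀ p ∈ n.primeFactors, p ≠ 2 → sym n p (dd n.primeFactors x) = 1 := by
    intro x
    rw [MT_vec]
    constructor
    · intro h1 p hp hp2
      rw [← sg_sym h hp hp2, sg_one]
      exact h1 p hp
    · intro h1
      refine col_two x fun p hp hp2 => ?_
      rw [← sg_one, sg_sym h hp hp2]
      exact h1 p hp hp2
  have e0 : dd n.primeFactors (fun _ => 0) = 1 := by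
    unfold dd
    rw [filter_false_of_mem fun _ _ => zero_ne_one, prod_empty]
  constructor
  · intro h1 d hd h2
    have h3 := dd_surj hd
    rcases h1 (fun p => if p ∣ d then 1 else 0) ((e1 _).2 (by rw [h3]; exact h2)) with h4 | h4
    · left
      rw [← h3, ← e0]
      unfold dd
      congr 1
      refine filter_congr fun p hp => ?_
      have := congrFun h4 ⟨p, hp⟩
      simp only [Pi.zero_apply] at this
      simp only [this]
    · right
      rw [← h3]
      unfold dd
      congr 1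
      refine filter_congr fun p hp => ?_
      have := congrFun h4 ⟨p, hp⟩
      simp only at this
      simp only [this]
  · intro h1 x hx
    rcases h1 _ (dd_dvd x) ((e1 x).1 hx) with h2 | h2
    · left
      rw [← e0] at h2
      funext p
      exact dd_inj h2 p p.2
    · right
      funext p
      exact dd_inj h2 p p.2

theorem Ts_iff {n : ℕ} (h0 : n.primeFactors.Nonempty) : Ts (fun p q => ls n q p) n.primeFactors ↔
    ∀ y, (MM n).mulVec y = 0 → y = 0 ∨ y = fun _ => 1 := by
  obtain ⟨r, hr⟩ := h0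
  rw [ex_ext]
  unfold Ts
  refine forall_congr' fun x => ?_
  rw [MM_vec]
  refine imp_congr Iff.rfl ?_
  constructor
  · intro h
    rcases z2 (x r) with h1 | h1
    · left
      funext p
      rw [h p p.2 r hr, h1]; rfl
    · right
      funext p
      rw [h p p.2 r hr, h1]
  · rintro (h | h) p hp q hq
    · have h1 := congrFun h ⟨p, hp⟩
      have h2 := congrFun h ⟨q, hq⟩
      exact h1.trans h2.symm
    · have h1 := congrFun h ⟨p, hp⟩
      have h2 := congrFun h ⟨q, hq⟩
      exact h1.trans h2.symm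

/-- the kernel and the divisors, `k` a nonzero vector in the kernel of the transpose -/
theorem Ts_Dq {n : ℕ} (h : Hn n) (h0 : n.primeFactors.Nonempty) (k : ℕ → ZMod 2)
    (hk : ∃ r ∈ n.primeFactors, k r = 1)
    (hs : ∀ p ∈ n.primeFactors, p ≠ 2 → sym n p (dd n.primeFactors k) = 1) :
    Ts (fun p q => ls n q p) n.primeFactors ↔ Dq n (dd n.primeFactors k) := by
  rw [Ts_iff h0, ← kerT_iff h k]
  obtain ⟨r, hr, hkr⟩ := hk
  refine ker_tr (MM n) _ _ ?_ ?_ ?_ ?_
  · intro h1
    have h2 := congrFun h1 ⟨r, hr⟩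
    exact one_ne_zero h2
  · rw [MM_vec n fun _ => 1]
    intro p hp
    simp only [mul_one]
    exact row_sum hp
  · intro h1
    have h2 := congrFun h1 ⟨r, hr⟩
    simp only [Pi.zero_apply] at h2
    rw [hkr] at h2
    exact one_ne_zero h2
  · rw [MT_vec]
    refine col_two k fun p hp hp2 => ?_
    rw [← sg_one, sg_sym h hp hp2]
    exact hs p hp hp2

/-! ### odd discriminants -/

theorem odd_pf {n p : ℕ} (h4 : n % 2 = 1) (hp : p ∈ n.primeFactors) : p ≠ 2 := by
  rintro rfl
  have := Nat.dvd_of_mem_primeFactors hp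
  omega

theorem js_sq' {p a : ℕ} (hp : p.Prime) (h : ¬ p ∣ a) : jacobiSym (a : ℤ) p * jacobiSym a p = 1 := by
  have h1 : (a : ℤ).gcd p = 1 := by
    rw [Int.gcd_natCast_natCast]
    exact ((Nat.Prime.coprime_iff_not_dvd hp).2 h).symm
  rw [← sq, jacobiSym.sq_one h1]

theorem sym_b {n b c p : ℕ} (hs : Squarefree n) (h : b * c = n) (hp : p.Prime) :
    sym n p b = if p ∣ b then jacobiSym c p else jacobiSym b p := by
  unfold sym
  by_cases h1 : p ∣ b
  · rw [if_pos h1, if_pos h1]
    obtain ⟨e, he⟩ := h1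
    have h2 : ¬ p ∣ e := fun h3 => by
      have h4 : p * p ∣ n := by rw [← h, he]; exact (mul_dvd_mul_left p h3).mul_right c
      exact hp.one_lt.ne' (Nat.isUnit_iff.1 (hs p h4))
    have e1 : b / p = e := by rw [he]; exact Nat.mul_div_cancel_left _ hp.pos
    have e2 : n / p = e * c := by
      rw [← h, he, mul_assoc]; exact Nat.mul_div_cancel_left _ hp.pos
    rw [e1, e2, Nat.cast_mul, Nat.cast_mul, jacobiSym.mul_left, jacobiSym.mul_left, ← mul_assoc,
      js_sq' hp h2, one_mul]
  · rw [if_neg h1, if_neg h1]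

theorem Qc_Dq {n : ℕ} (hs : Squarefree n) (h2 : n % 2 = 1) : Qc n ↔ Dq n n := by
  have hR := Nat.prod_primeFactors_of_squarefree hs
  unfold Qc Dq
  rw [hR]
  constructor
  · rintro h d ⟨c, hc⟩ h3
    have hc0 : c ≠ 0 := by rintro rfl; exact hs.ne_zero (by rw [hc, mul_zero])
    have hd0 : d ≠ 0 := by rintro rfl; exact hs.ne_zero (by rw [hc, zero_mul])
    have h5 := h d c hc.symm ?_ ?_
    · rcases h5 with h4 | h4
      · exact Or.inl h4
      · right; rw [hc, h4, mul_one]
    · intro p hp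
      have hp' := Nat.prime_of_mem_primeFactors hp
      have hpc := Nat.dvd_of_mem_primeFactors hp
      have hpn : p ∈ n.primeFactors :=
        Nat.mem_primeFactors.2 ⟨hp', by rw [hc]; exact hpc.mul_left d, hs.ne_zero⟩
      have h5 := h3 p hpn (odd_pf h2 hpn)
      rw [sym_b hs hc.symm hp', if_neg] at h5
      · exact h5
      · intro h6
        have h7 : p * p ∣ n := by rw [hc]; exact mul_dvd_mul h6 hpc
        exact hp'.one_lt.ne' (Nat.isUnit_iff.1 (hs p h7))
    · intro p hp
      have hp' := Nat.prime_of_mem_primeFactors hp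
      have hpd := Nat.dvd_of_mem_primeFactors hp
      have hpn : p ∈ n.primeFactors :=
        Nat.mem_primeFactors.2 ⟨hp', by rw [hc]; exact hpd.mul_right c, hs.ne_zero⟩
      have h5 := h3 p hpn (odd_pf h2 hpn)
      rw [sym_b hs hc.symm hp', if_pos hpd] at h5
      exact h5
  · intro h b c hbc h3 h4
    have hc0 : c ≠ 0 := by rintro rfl; exact hs.ne_zero (by rw [← hbc, mul_zero])
    have hb0 : b ≠ 0 := by rintro rfl; exact hs.ne_zero (by rw [← hbc, zero_mul])
    have h6 := h b ⟨c, hbc.symm⟩ ?_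
    · rcases h6 with h5 | h5
      · exact Or.inl h5
      · right
        have h6 : b * c = b * 1 := by rw [hbc, mul_one, h5]
        exact Nat.eq_of_mul_eq_mul_left (Nat.pos_of_ne_zero hb0) h6
    · intro p hp _
      have hp' := Nat.prime_of_mem_primeFactors hp
      have hpn := Nat.dvd_of_mem_primeFactors hp
      rw [sym_b hs hbc hp']
      by_cases h5 : p ∣ b
      · rw [if_pos h5]
        exact h4 p (Nat.mem_primeFactors.2 ⟨hp', h5, hb0⟩)
      · rw [if_neg h5]
        rw [← hbc] at hpn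
        exact h3 p (Nat.mem_primeFactors.2 ⟨hp', (hp'.dvd_mul.1 hpn).resolve_left h5, hc0⟩)

/-- **the criterion of no ideal class of order four, odd discriminants** -/
theorem Ts_Qc {n : ℕ} (hs : Squarefree n) (h4 : n % 4 = 3) :
    Ts (fun p q => ls n q p) n.primeFactors ↔ Qc n := by
  have hR := Nat.prod_primeFactors_of_squarefree hs
  have hne : n.primeFactors.Nonempty := Nat.nonempty_primeFactors.2 (by omega)
  have e1 : dd n.primeFactors (fun _ => 1) = n := by
    unfold dd
    rw [filter_true_of_mem fun _ _ => rfl, hR]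
  have h := Ts_Dq (Hn_odd hs h4) hne (fun _ => 1) ?_ ?_
  · rw [h, e1, Qc_Dq hs (by omega)]
  · obtain ⟨r, hr⟩ := hne
    exact ⟨r, hr, rfl⟩
  · intro p hp _
    have hp' := Nat.prime_of_mem_primeFactors hp
    rw [e1, sym_b hs (mul_one n) hp', if_pos (Nat.dvd_of_mem_primeFactors hp), Nat.cast_one,
      jacobiSym.one_left]

/-! ### even discriminants -/

theorem dvd_rad {n d : ℕ} (hn : n ≠ 0) : d ∣ ∏ p ∈ n.primeFactors, p ↔
    Squarefree d ∧ ∀ p ∈ d.primeFactors, p ∣ n := by
  have hP : ∀ q ∈ n.primeFactors, q.Prime := fun q hq => Nat.prime_of_mem_primeFactors hq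
  have hR0 : ∏ p ∈ n.primeFactors, p ≠ 0 := prod_ne_zero_iff.2 fun q hq => (hP q hq).ne_zero
  constructor
  · intro h
    have h1 := dd_surj h
    have h2 : d.primeFactors ⊆ n.primeFactors := by
      have := Nat.primeFactors_mono h hR0
      rwa [Nat.primeFactors_prod hP] at this
    refine ⟨?_, fun p hp => Nat.dvd_of_mem_primeFactors (h2 hp)⟩
    have hd0 : d ≠ 0 := fun h0 => hR0 (by rw [h0] at h; exact zero_dvd_iff.1 h)
    rw [← h1]
    unfold dd
    rw [Nat.squarefree_iff_factorization_le_one (prod_ne_zero_iff.2 fun q hq =>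
      (hP q (mem_of_mem_filter q hq)).ne_zero)]
    intro p
    rw [Nat.factorization_prod fun q hq => (hP q (mem_of_mem_filter q hq)).ne_zero,
      Finsupp.finsetSum_apply]
    calc ∑ q ∈ n.primeFactors.filter (fun q => (if q ∣ d then (1 : ZMod 2) else 0) = 1),
          q.factorization p
        = ∑ q ∈ n.primeFactors.filter (fun q => (if q ∣ d then (1 : ZMod 2) else 0) = 1),
            if q = p then 1 else 0 := by
          refine sum_congr rfl fun q hq => ?_
          rw [(hP q (mem_of_mem_filter q hq)).factorization, Finsupp.single_apply]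
      _ ≤ 1 := by
          rw [sum_ite_eq']
          split_ifs <;> norm_num
  · rintro ⟨h1, h2⟩
    rw [← Nat.prod_primeFactors_of_squarefree h1]
    refine prod_dvd_prod_of_subset _ _ _ fun p hp => ?_
    exact Nat.mem_primeFactors.2 ⟨Nat.prime_of_mem_primeFactors hp, h2 p hp, hn⟩

theorem sym_four {m p d : ℕ} (hp : p.Prime) (hp2 : p ≠ 2) (hpm : p ∣ m) : sym (4 * m) p d =
    if p ∣ d then jacobiSym ((d / p * (4 * m / 4 / p) : ℕ) : ℤ) p else jacobiSym d p := by
  unfold sym
  by_cases h : p ∣ d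
  · rw [if_pos h, if_pos h]
    obtain ⟨k, hk⟩ := hpm
    have e1 : 4 * m / p = 4 * k := by
      rw [hk, show 4 * (p * k) = p * (4 * k) by ring]; exact Nat.mul_div_cancel_left _ hp.pos
    have e2 : 4 * m / 4 / p = k := by
      rw [Nat.mul_div_cancel_left _ (by norm_num : 0 < 4), hk]
      exact Nat.mul_div_cancel_left _ hp.pos
    have h4 : jacobiSym ((2 : ℕ) : ℤ) p * jacobiSym ((2 : ℕ) : ℤ) p = 1 :=
      js_sq' hp fun h1 => hp2 ((Nat.prime_dvd_prime_iff_eq hp Nat.prime_two).1 h1)
    rw [e1, e2, show d / p * (4 * k) = 2 * 2 * (d / p * k) by ring, Nat.cast_mul (2 * 2),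
      Nat.cast_mul 2 2, jacobiSym.mul_left, jacobiSym.mul_left, h4, one_mul]
  · rw [if_neg h, if_neg h]

/-- **the criterion of no ideal class of order four, even discriminants** -/
theorem Ts_Qe {n : ℕ} (h : Ev n) (hn4 : n ≠ 4) :
    Ts (fun p q => ls n q p) n.primeFactors ↔ Qe n := by
  have hH := Hn_even h
  obtain ⟨m, rfl, hs, h4⟩ := h
  have hm0 : m ≠ 0 := hs.ne_zero
  have hm1 : m ≠ 1 := by rintro rfl; exact hn4 rfl
  have hn0 : 4 * m ≠ 0 := by omega
  have hne : (4 * m).primeFactors.Nonempty := Nat.nonempty_primeFactors.2 (by omega)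
  have hpm : ∀ p ∈ (4 * m).primeFactors, p ≠ 2 → p ∣ m := by
    intro p hp hp2
    rw [Ev_pf hm0] at hp
    exact Nat.dvd_of_mem_primeFactors ((mem_insert.1 hp).resolve_left hp2)
  have hmR : m ∣ ∏ p ∈ (4 * m).primeFactors, p :=
    (dvd_rad hn0).2 ⟨hs, fun p hp => (Nat.dvd_of_mem_primeFactors hp).mul_left 4⟩
  have e1 := dd_surj hmR
  have hd4 : 4 * m / 4 = m := Nat.mul_div_cancel_left _ (by norm_num)
  have h1 := Ts_Dq hH hne (fun p => if p ∣ m then 1 else 0) ?_ ?_
  · rw [h1, e1]
    unfold Dq Qe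
    rw [hd4]
    constructor
    · intro h2 d hd h3 h5
      refine h2 d ((dvd_rad hn0).2 ⟨hd, h3⟩) fun p hp hp2 => ?_
      rw [sym_four (Nat.prime_of_mem_primeFactors hp) hp2 (hpm p hp hp2), hd4]
      exact h5 p hp hp2
    · intro h2 d hd h3
      obtain ⟨h5, h6⟩ := (dvd_rad hn0).1 hd
      refine h2 d h5 h6 fun p hp hp2 => ?_
      have := h3 p hp hp2
      rwa [sym_four (Nat.prime_of_mem_primeFactors hp) hp2 (hpm p hp hp2), hd4] at this
  · obtain ⟨r, hr, hrm⟩ := Nat.exists_prime_and_dvd hm1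
    exact ⟨r, Nat.mem_primeFactors.2 ⟨hr, hrm.mul_left 4, hn0⟩, if_pos hrm⟩
  · intro p hp hp2
    have hp' := Nat.prime_of_mem_primeFactors hp
    rw [e1, sym_four hp' hp2 (hpm p hp hp2), if_pos (hpm p hp hp2), hd4, Nat.cast_mul,
      jacobiSym.mul_left]
    refine js_sq' hp' fun h2 => ?_
    obtain ⟨k, hk⟩ := hpm p hp hp2
    have h3 : m / p = k := by
      conv_lhs => rw [hk]
      exact Nat.mul_div_cancel_left _ hp'.pos
    rw [h3] at h2
    have h5 : p * p ∣ m := by
      conv_rhs => rw [hk]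
      exact mul_dvd_mul_left p h2
    exact hp'.one_lt.ne' (Nat.isUnit_iff.1 (hs p h5))

/-! ### the symmetric system -/

theorem al_odd (n : ℕ) {p : ℕ} (hp : Odd p) (hp2 : p ≠ 2) : al n p = if p % 4 = 1 then 0 else 1 := by
  unfold al
  rw [star_odd n hp2]
  unfold st
  have h0 : 0 < p := hp.pos
  by_cases h : p % 4 = 1
  · rw [if_pos h, if_pos h, if_neg (by omega)]
  · rw [if_neg h, if_neg h, if_pos (by omega)]

theorem sg_al (n : ℕ) {p : ℕ} (hp : Odd p) (hp2 : p ≠ 2) : sg (al n p) = jacobiSym (-1) p := by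
  rw [al_odd n hp hp2, jacobiSym.at_neg_one hp]
  have h1 : p % 4 = 1 ∨ p % 4 = 3 := by rw [Nat.odd_iff] at hp; omega
  rcases h1 with h1 | h1
  · rw [if_pos h1, ZMod.χ₄_nat_one_mod_four h1]; rfl
  · rw [if_neg (by omega), ZMod.χ₄_nat_three_mod_four h1]; rfl

theorem sg_nu {p : ℕ} (hp : p.Prime) (hp2 : p ≠ 2) (h17 : p ≠ 17) : sg (nu p) = jacobiSym 17 p := by
  unfold nu
  rw [if_neg hp2]
  have h1 : (17 : ℤ).gcd p = 1 := js_ne (q := 17) hp (by norm_num) h17
  rcases jacobiSym.eq_one_or_neg_one h1 with h | h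
  · rw [h]; rfl
  · rw [h]; rfl

theorem LL_off {n p q : ℕ} (hp : p.Prime) (hq : q.Prime) (h : p ≠ q) (hp2 : p ≠ 2) (hq2 : q ≠ 2) :
    LL n p q = LL n q p + al n p * al n q := by
  have hpo := hp.odd_of_ne_two hp2
  have hqo := hq.odd_of_ne_two hq2
  apply sg_inj
  rw [sg_add, sg_col hp hq h hp2]
  have e1 : sg (LL n p q) = jacobiSym (st q) p := by
    unfold LL
    rw [if_neg h, sg_ls hp hq h hp2, star_odd n hq2]
  have e2 := sg_al n hpo hp2
  rw [e1, al_odd n hqo hq2]
  unfold st
  split_ifs with h1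
  · rw [mul_zero]; exact (mul_one _).symm
  · rw [mul_one, e2, ← jacobiSym.mul_left]
    congr 1; ring

theorem two0 (a : ZMod 2) : a + a = 0 := by revert a; decide

theorem LL_tr {n : ℕ} (h2 : n % 2 = 1) (y : ℕ → ZMod 2) {p : ℕ} (hp : p ∈ n.primeFactors) :
    ∑ q ∈ n.primeFactors, LL n p q * y q = ∑ q ∈ n.primeFactors, LL n q p * y q +
      al n p * (∑ q ∈ n.primeFactors, al n q * y q) + al n p * y p := by
  have hp' := Nat.prime_of_mem_primeFactors hp
  rw [← add_sum_erase _ _ hp, ← add_sum_erase _ (fun q => LL n q p * y q) hp,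
    ← add_sum_erase _ (fun q => al n q * y q) hp]
  have e1 : ∑ q ∈ n.primeFactors.erase p, LL n p q * y q =
      ∑ q ∈ n.primeFactors.erase p, LL n q p * y q +
        al n p * ∑ q ∈ n.primeFactors.erase p, al n q * y q := by
    rw [mul_sum, ← sum_add_distrib]
    refine sum_congr rfl fun q hq => ?_
    rw [LL_off hp' (Nat.prime_of_mem_primeFactors (mem_of_mem_erase hq))
      (ne_of_mem_erase hq).symm (odd_pf h2 hp) (odd_pf h2 (mem_of_mem_erase hq))]
    ring
  rw [e1]
  have : ∀ a b c d e : ZMod 2, a + (b + c * d) = a + b + c * (c * e + d) + c * e := by decide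
  exact this _ _ _ _ _

theorem col_sum0 {n : ℕ} (x : ℕ → ZMod 2) :
    ∑ p ∈ n.primeFactors, ∑ q ∈ n.primeFactors, LL n q p * x q = 0 := by
  rw [sum_comm]
  refine sum_eq_zero fun q hq => ?_
  rw [← sum_mul, row_sum hq, zero_mul]

theorem sw_sym {n b p : ℕ} (hs : Squarefree n) (hb : b ∣ n) (hp : p.Prime) :
    jacobiSym ((sw n p b : ℕ) : ℤ) p = sym n p b := by
  obtain ⟨c, hc⟩ := hb
  have hb0 : b ≠ 0 := by rintro rfl; exact hs.ne_zero (by rw [hc, zero_mul])
  rw [sym_b hs hc.symm hp]
  unfold sw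
  have e1 : n / b = c := by rw [hc]; exact Nat.mul_div_cancel_left _ (Nat.pos_of_ne_zero hb0)
  rw [e1]
  split_ifs <;> rfl

theorem dd_zero {n : ℕ} : dd n.primeFactors (fun _ => 0) = 1 := by
  unfold dd
  rw [filter_false_of_mem fun _ _ => zero_ne_one, prod_empty]

theorem dd_eq_one {n : ℕ} {x : ℕ → ZMod 2} (h : dd n.primeFactors x = 1) :
    ∀ p ∈ n.primeFactors, x p = 0 := dd_inj (h.trans dd_zero.symm)

/-- **the criteria agree for odd discriminants** -/
theorem t_SxSc : S_SxSc := by
  intro n hn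
  obtain ⟨hs, h4, h17⟩ := hn
  have hH := Hn_odd hs h4
  have hR := Nat.prod_primeFactors_of_squarefree hs
  have hP : ∀ q ∈ n.primeFactors, q.Prime := fun q hq => Nat.prime_of_mem_primeFactors hq
  have ho : ∀ q ∈ n.primeFactors, q ≠ 2 := fun q hq => odd_pf (by omega) hq
  have h17' : ∀ q ∈ n.primeFactors, q ≠ 17 := by
    rintro q hq rfl
    have h5 := Nat.dvd_of_mem_primeFactors hq
    have h6 : jacobiSym (n : ℤ) 17 = 0 := by
      rw [jacobiSym.eq_zero_iff_not_coprime, Int.gcd_eq_natAbs]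
      intro h7
      have h8 : Nat.gcd n 17 = 17 := Nat.gcd_eq_right h5
      have h9 : Nat.gcd n 17 = 1 := by simpa using h7
      omega
    rw [h6] at h17
    norm_num at h17
  constructor
  · intro h b c hb hc hA hB
    have eb := dd_surj (n := n) (d := b) (by rw [hR]; exact hb)
    have ec := dd_surj (n := n) (d := c) (by rw [hR]; exact hc)
    obtain ⟨x, hx⟩ : ∃ x : ℕ → ZMod 2, x = fun p => if p ∣ b then 1 else 0 := ⟨_, rfl⟩
    obtain ⟨z, hz⟩ : ∃ z : ℕ → ZMod 2, z = fun p => if p ∣ c then 1 else 0 := ⟨_, rfl⟩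
    rw [← hx] at eb
    rw [← hz] at ec
    -- the second block
    have hII : ∀ q ∈ n.primeFactors, ∑ p ∈ n.primeFactors, LL n p q * x p +
        al n q * (x q + z q) = 0 := by
      intro q hq
      apply sg_inj
      rw [sg_add, sg_sym hH hq (ho q hq), eb]
      have h1 := hA q hq
      rw [sw_sym hs hb (hP q hq)] at h1
      have h2 : (if q ∣ b ↔ q ∣ c then 1 else jacobiSym (-1) q) = sg (al n q * (x q + z q)) := by
        rw [← sg_al n ((hP q hq).odd_of_ne_two (ho q hq)) (ho q hq), hx, hz]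
        by_cases h3 : q ∣ b <;> by_cases h5 : q ∣ c
        · simp only [h3, h5, if_true]; rw [two0, mul_zero]; rfl
        · simp [h3, h5]
        · simp [h3, h5]
        · simp only [h3, h5, if_true, if_false]; rw [two0, mul_zero]; rfl
      rw [← h2, h1]; rfl
    have hIII : ∀ q ∈ n.primeFactors, nu q * x q + ∑ p ∈ n.primeFactors, LL n p q * z p = 0 := by
      intro q hq
      apply sg_inj
      rw [sg_add, sg_sym hH hq (ho q hq), ec]
      have h1 := hB q hq
      rw [sw_sym hs hc (hP q hq)] at h1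
      have h2 : (if q ∣ b then jacobiSym 17 q else 1) = sg (nu q * x q) := by
        rw [← sg_nu (hP q hq) (ho q hq) (h17' q hq), hx]
        by_cases h3 : q ∣ b
        · simp [h3]
        · simp only [h3, if_false, mul_zero]; rfl
      rw [← h2, mul_comm, h1]; rfl
    have hs0 : ∑ q ∈ n.primeFactors, al n q * (x q + z q) = 0 := by
      have h1 := sum_eq_zero hII
      rw [sum_add_distrib, col_sum0, zero_add] at h1
      exact h1
    have key := h x (fun p => x p + z p) ?_ hII
    · constructor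
      · rw [← eb, ← dd_zero (n := n)]
        unfold dd
        congr 1
        refine filter_congr fun p hp => ?_
        rw [(key p hp).1]
      · rw [← ec, ← dd_zero (n := n)]
        unfold dd
        congr 1
        refine filter_congr fun p hp => ?_
        have h1 := (key p hp).1
        have h2 : x p + z p = 0 := (key p hp).2
        rw [h1, zero_add] at h2
        rw [h2]
    · intro p hp
      rw [LL_tr (by omega) _ hp, hs0, mul_zero, add_zero]
      have e1 : ∑ q ∈ n.primeFactors, LL n q p * (x q + z q) =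
          ∑ q ∈ n.primeFactors, LL n q p * x q + ∑ q ∈ n.primeFactors, LL n q p * z q := by
        rw [← sum_add_distrib]
        exact sum_congr rfl fun q _ => by ring
      rw [e1]
      have h1 := hII p hp
      have h2 := hIII p hp
      have : ∀ a b c d : ZMod 2, a + b = 0 → c + d = 0 → c + (a + d + b) = 0 := by decide
      exact this _ _ _ _ h1 h2
  · intro h x y hI hII
    have hs0 : ∑ q ∈ n.primeFactors, al n q * y q = 0 := by
      have h1 := sum_eq_zero hII
      rw [sum_add_distrib, col_sum0, zero_add] at h1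
      exact h1
    have dx : dd n.primeFactors x ∣ n := by have := dd_dvd (n := n) x; rwa [hR] at this
    have dy : dd n.primeFactors (fun p => x p + y p) ∣ n := by
      have := dd_dvd (n := n) (fun p => x p + y p); rwa [hR] at this
    have key := h (dd n.primeFactors x) (dd n.primeFactors (fun p => x p + y p)) dx dy ?_ ?_
    · intro p hp
      have h1 := dd_eq_one key.1 p hp
      have h2 : x p + y p = 0 := dd_eq_one key.2 p hp
      rw [h1, zero_add] at h2
      exact ⟨h1, h2⟩
    · intro q hq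
      rw [sw_sym hs dx (hP q hq), ← sg_sym hH hq (ho q hq)]
      have hd1 : q ∣ dd n.primeFactors x ↔ x q = 1 := by
        rw [dvd_dd hP (hP q hq)]; simp only [hq, true_and]
      have hd2 : q ∣ dd n.primeFactors (fun p => x p + y p) ↔ x q + y q = 1 := by
        rw [dvd_dd hP (hP q hq)]; simp only [hq, true_and]
      have e1 : (if (q ∣ dd n.primeFactors x ↔ q ∣ dd n.primeFactors (fun p => x p + y p)) then 1
          else jacobiSym (-1) q) = sg (al n q * y q) := by
        rw [← sg_al n ((hP q hq).odd_of_ne_two (ho q hq)) (ho q hq)]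
        simp only [hd1, hd2]
        rcases z2 (x q) with h1 | h1 <;> rcases z2 (y q) with h3 | h3
        · rw [h1, h3, if_pos (by decide), mul_zero]; rfl
        · rw [h1, h3, if_neg (by decide), mul_one]
        · rw [h1, h3, if_pos (by decide), mul_zero]; rfl
        · rw [h1, h3, if_neg (by decide), mul_one]
      have e2 := congrArg Pool.Agent.N855.P15.sg (hII q hq)
      rw [sg_add, ← e1] at e2
      exact e2
    · intro q hq
      rw [sw_sym hs dy (hP q hq), ← sg_sym hH hq (ho q hq)]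
      have hd1 : q ∣ dd n.primeFactors x ↔ x q = 1 := by
        rw [dvd_dd hP (hP q hq)]; simp only [hq, true_and]
      have e1 : (if q ∣ dd n.primeFactors x then jacobiSym 17 q else 1) = sg (nu q * x q) := by
        rw [← sg_nu (hP q hq) (ho q hq) (h17' q hq)]
        simp only [hd1]
        rcases z2 (x q) with h1 | h1
        · rw [h1, if_neg (by decide), mul_zero]; rfl
        · rw [h1, if_pos rfl, mul_one]
      rw [e1, ← sg_add, sg_one]
      have e2 : ∑ p ∈ n.primeFactors, LL n p q * (x p + y p) =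
          ∑ p ∈ n.primeFactors, LL n p q * x p + ∑ p ∈ n.primeFactors, LL n p q * y p := by
        rw [← sum_add_distrib]
        exact sum_congr rfl fun q _ => by ring
      rw [e2]
      have h1 := hII q hq
      have h2 := hI q hq
      rw [LL_tr (by omega) _ hq, hs0, mul_zero, add_zero] at h2
      have : ∀ a b c d : ZMod 2, a + b = 0 → c + (d + b) = 0 → a + d + c = 0 := by decide
      exact this _ _ _ _ h1 h2

/-! ### positive discriminants -/

open Pool.Agent.N969.P17G in
theorem t_SxP : S_SxP := by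
  intro A hA
  have ho : ∀ q ∈ A.primeFactors, q ≠ 2 := fun q hq => odd_pf (by have := hA.2.1; omega) hq
  have e0 : ∀ q ∈ A.primeFactors, starP A q = star A q := fun q hq => by
    unfold starP Pool.Agent.N972.P17.star
    rw [if_neg (ho q hq), if_neg (ho q hq)]
  have e1 : ∀ q ∈ A.primeFactors, ∀ p ∈ A.primeFactors, lsP A q p = ls A q p := fun q hq p hp => by
    unfold lsP ls
    rw [if_neg (ho p hp), if_neg (ho p hp), e0 q hq]
  have e2 : ∀ p ∈ A.primeFactors, ∀ q ∈ A.primeFactors, LLP A p q = LL A p q :=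
    fun p hp q hq => by
      unfold LLP LL
      split_ifs with h
      · exact sum_congr rfl fun r hr => e1 r (mem_of_mem_erase hr) p hp
      · exact e1 q hq p hp
  have e3 : ∀ q ∈ A.primeFactors, alP A q = al A q := fun q hq => by
    unfold alP al
    rw [e0 q hq]
  unfold SxP Sx
  refine forall_congr' fun x => forall_congr' fun y => ?_
  refine imp_congr ?_ (imp_congr ?_ Iff.rfl)
  · refine forall_congr' fun p => forall_congr' fun hp => ?_
    rw [sum_congr rfl fun q hq => by rw [e2 p hp q hq]]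
  · refine forall_congr' fun q => forall_congr' fun hq => ?_
    rw [sum_congr rfl fun p hp => by rw [e2 p hp q hq], e3 q hq]

end Pool.Agent.N816.P17.Crit
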