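import Pool.Agent.N969.P17G.Defs
import Pool.Agent.N816.P17.C2B

/-!
# P17G-C2 (helper816, idea of helper871): the flip lemma, from right to left kernel symbols
-/

set_option autoImplicit false

namespace Pool.Agent.N816.P17.Flip

open Finset
open Pool.Agent.N969.P15 (ep2 psp)
open Pool.Agent.N972.P17
open Pool.Agent.N969.P17G

/-! ### the toggle -/

theorem sum_two {T p t T0 : ℕ} (hp : p.Prime) (ht : 0 < t) (hT : T = T0 * p ^ t) (h0 : ¬ p ∣ T0)
    (Q : ℕ → Prop) [DecidablePred Q] (hQ : ∀ x, Q (x * p ^ t) ↔ Q x) (F : ℕ → ℤ)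
    (hF : ∀ a, a ∣ T → p ∣ a → ¬ p ^ t ∣ a → F a = 0) :
    ∑ a ∈ T.divisors.filter Q, F a = ∑ a ∈ T0.divisors.filter Q, (F a + F (a * p ^ t)) := by
  classical
  have hT00 : T0 ≠ 0 := by rintro rfl; exact h0 (dvd_zero p)
  have hpt : p ^ t ≠ 0 := pow_ne_zero _ hp.ne_zero
  have hT0' : T ≠ 0 := by rw [hT]; exact mul_ne_zero hT00 hpt
  rw [Finset.sum_add_distrib, ← Finset.sum_filter_add_sum_filter_not (T.divisors.filter Q)
    (fun a => ¬ p ∣ a)]
  congr 1
  · refine Finset.sum_congr ?_ fun _ _ => rfl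
    ext a
    simp only [Finset.mem_filter, Nat.mem_divisors]
    constructor
    · rintro ⟨⟨⟨h1, _⟩, h2⟩, h3⟩
      refine ⟨⟨?_, hT00⟩, h2⟩
      rw [hT] at h1
      exact Nat.Coprime.dvd_of_dvd_mul_right
        (Nat.Coprime.pow_right _ ((Nat.Prime.coprime_iff_not_dvd hp).2 h3).symm) h1
    · rintro ⟨⟨h1, _⟩, h2⟩
      refine ⟨⟨⟨?_, hT0'⟩, h2⟩, fun h3 => h0 (h3.trans h1)⟩
      rw [hT]; exact h1.mul_right _
  · have e : ∑ a ∈ (T.divisors.filter Q).filter (fun a => ¬ ¬ p ∣ a), F a =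
        ∑ a ∈ (T.divisors.filter Q).filter (fun a => p ^ t ∣ a), F a := by
      symm
      refine Finset.sum_subset ?_ ?_
      · intro a ha
        simp only [Finset.mem_filter] at ha ⊢
        exact ⟨ha.1, not_not.2 ((dvd_pow_self p ht.ne').trans ha.2)⟩
      · intro a ha ha'
        simp only [Finset.mem_filter, not_not, Nat.mem_divisors, not_and] at ha ha'
        exact hF a ha.1.1.1 ha.2 (ha' ha.1)
    rw [e]
    symm
    refine Finset.sum_nbij' (fun a => a * p ^ t) (fun a => a / p ^ t) ?_ ?_ ?_ ?_ ?_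
    · intro a ha
      simp only [Finset.mem_filter, Nat.mem_divisors] at ha ⊢
      refine ⟨⟨⟨?_, hT0'⟩, (hQ a).2 ha.2⟩, dvd_mul_left _ _⟩
      rw [hT]; exact mul_dvd_mul_right ha.1.1 _
    · intro a ha
      simp only [Finset.mem_filter, Nat.mem_divisors] at ha ⊢
      obtain ⟨⟨⟨h1, _⟩, h2⟩, b, h3⟩ := ha
      have h4 : a / p ^ t = b := by rw [h3]; exact Nat.mul_div_cancel_left _ (Nat.pos_of_ne_zero hpt)
      rw [h4]
      refine ⟨⟨?_, hT00⟩, ?_⟩
      · rw [h3, hT, mul_comm] at h1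
        exact Nat.dvd_of_mul_dvd_mul_right (Nat.pos_of_ne_zero hpt) h1
      · rw [h3, mul_comm] at h2; exact (hQ b).1 h2
    · intro a _
      exact Nat.mul_div_cancel _ (Nat.pos_of_ne_zero hpt)
    · intro a ha
      simp only [Finset.mem_filter] at ha
      exact Nat.div_mul_cancel ha.2
    · intro a _; rfl

/-- toggling the `p`-part of a divisor -/
theorem toggle {T p t T0 : ℕ} (hp : p.Prime) (ht : 0 < t) (hT : T = T0 * p ^ t) (h0 : ¬ p ∣ T0)
    (Q : ℕ → Prop) [DecidablePred Q] (hQ : ∀ x, Q (x * p ^ t) ↔ Q x) (f g : ℕ → ℤ) (c : ℤ)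
    (h1 : ∀ a, a ∣ T0 → g (a * p ^ t) = c * f a)
    (h2 : ∀ a, a ∣ T0 → g a = c * f (a * p ^ t))
    (hz : ∀ a, a ∣ T → p ∣ a → ¬ p ^ t ∣ a → f a = 0 ∧ g a = 0) :
    ∑ a ∈ T.divisors.filter Q, g a = c * ∑ a ∈ T.divisors.filter Q, f a := by
  rw [sum_two hp ht hT h0 Q hQ f fun a x y z => (hz a x y z).1,
    sum_two hp ht hT h0 Q hQ g fun a x y z => (hz a x y z).2, Finset.mul_sum]
  refine Finset.sum_congr rfl fun a ha => ?_
  have ha' := Nat.dvd_of_mem_divisors (Finset.mem_of_mem_filter a ha)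
  rw [h1 a ha', h2 a ha']
  ring

/-! ### symbols -/

theorem js_sq {p : ℕ} (hp : p.Prime) {x : ℤ} (h : ¬ (p : ℤ) ∣ x) : jacobiSym x p * jacobiSym x p = 1 := by
  have h1 : IsCoprime x (p : ℤ) := ((Nat.prime_iff_prime_int.1 hp).coprime_iff_not_dvd.2 h).symm
  have h2 : x.gcd p = 1 := Int.isCoprime_iff_gcd_eq_one.1 h1
  rw [← sq, jacobiSym.sq_one h2]

theorem js_zero {p : ℕ} (hp : p.Prime) {x : ℤ} (h : (p : ℤ) ∣ x) : jacobiSym x p = 0 := by
  have : NeZero p := ⟨hp.ne_zero⟩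
  rw [jacobiSym.eq_zero_iff_not_coprime]
  intro h1
  have h2 : (p : ℤ) ∣ ((x.gcd p : ℕ) : ℤ) := Int.dvd_coe_gcd h dvd_rfl
  rw [h1] at h2
  exact hp.one_lt.ne' (Nat.dvd_one.1 (by exact_mod_cast h2))

theorem jn {p : ℕ} (x : ℕ) : jacobiSym (-(x : ℤ)) p = jacobiSym (-1) p * jacobiSym x p := by
  rw [← jacobiSym.mul_left, neg_one_mul]

theorem jc {p : ℕ} (x y : ℕ) : jacobiSym ((x * y : ℕ) : ℤ) p = jacobiSym x p * jacobiSym y p := by
  rw [Nat.cast_mul, jacobiSym.mul_left]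

theorem je {p : ℕ} (hp : p.Prime) : jacobiSym (-1) p * jacobiSym (-1) p = 1 := by
  refine js_sq hp fun h => ?_
  have h1 : (p : ℤ) ∣ 1 := by simpa using h
  exact hp.one_lt.ne' (Nat.dvd_one.1 (by exact_mod_cast h1))

theorem jsq {p : ℕ} (hp : p.Prime) {x : ℕ} (h : ¬ p ∣ x) :
    jacobiSym (x : ℤ) p * jacobiSym (x : ℤ) p = 1 :=
  js_sq hp fun h1 => h (Int.natCast_dvd_natCast.1 h1)

theorem jz {p : ℕ} (hp : p.Prime) {x : ℕ} (h : p ∣ x) : jacobiSym (x : ℤ) p = 0 :=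
  js_zero hp (Int.natCast_dvd_natCast.2 h)

/-! ### scaling -/

theorem dvd_mul_iff {q c : ℕ} (hq : q.Prime) (hc : ¬ q ∣ c) (x : ℕ) : q ∣ x * c ↔ q ∣ x :=
  ⟨fun h => (hq.dvd_mul.1 h).resolve_right hc, fun h => h.mul_right c⟩

theorem psl_T {q c : ℕ} (hq : q.Prime) (hc : ¬ q ∣ c) (a a' Y X : ℕ) :
    psl q a (a' * c) Y X = jacobiSym c q * psl q a a' Y (X * c) := by
  have h := jsq hq hc
  unfold psl
  simp only [dvd_mul_iff hq hc]
  split_ifs
  · rw [jn, jn, jc, jc, jc]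
    linear_combination (-(jacobiSym (-1) q * jacobiSym X q * jacobiSym Y q)) * h
  · rw [jc, jc, jc]; ring

theorem psp_T {q c : ℕ} (hq : q.Prime) (hc : ¬ q ∣ c) (a a' Y X : ℕ) :
    psp q a (a' * c) Y X = jacobiSym c q * psp q a a' Y (X * c) := by
  have h := jsq hq hc
  unfold psp
  simp only [dvd_mul_iff hq hc]
  split_ifs
  · rw [jc, jc, jc]; ring
  · rw [jn, jn, jc, jc, jc]
    linear_combination (-(jacobiSym (-1) q * jacobiSym a q * jacobiSym X q)) * h

theorem psl_S {q c : ℕ} (hq : q.Prime) (hc : ¬ q ∣ c) (a a' Y X : ℕ) :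
    psl q (a * c) a' Y X = jacobiSym c q * psl q a a' (Y * c) X := by
  have h := jsq hq hc
  unfold psl
  simp only [dvd_mul_iff hq hc]
  split_ifs
  · rw [jn, jn, jc, jc, jc]
    linear_combination (-(jacobiSym (-1) q * jacobiSym X q * jacobiSym Y q)) * h
  · rw [jc, jc, jc]; ring

theorem psp_S {q c : ℕ} (hq : q.Prime) (hc : ¬ q ∣ c) (a a' Y X : ℕ) :
    psp q (a * c) a' Y X = jacobiSym c q * psp q a a' (Y * c) X := by
  have h := jsq hq hc
  unfold psp
  simp only [dvd_mul_iff hq hc]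
  split_ifs
  · rw [jc, jc, jc]
    linear_combination (-(jacobiSym a' q * jacobiSym Y q)) * h
  · rw [jn, jn, jc, jc, jc]; ring

/-! ### the mixed divisor sums -/

/-- left kernel symbols at the primes of `B`, right kernel symbols at the others -/
def fB (B : Finset ℕ) (p a a' Y X : ℕ) : ℤ := if p ∈ B then psl p a a' Y X else psp p a a' Y X

/-- the mixed divisor sum -/
def WB (P B : Finset ℕ) (S T : ℕ) : ℤ :=
  ∑ a ∈ S.divisors, ∑ a' ∈ T.divisors.filter (17 ∣ ·), ∏ p ∈ P, fB B p a a' (S / a) (T / a')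

theorem fB_T {B : Finset ℕ} {q c : ℕ} (hq : q.Prime) (hc : ¬ q ∣ c) (a a' Y X : ℕ) :
    fB B q a (a' * c) Y X = jacobiSym c q * fB B q a a' Y (X * c) := by
  unfold fB
  split_ifs
  · exact psl_T hq hc a a' Y X
  · exact psp_T hq hc a a' Y X

theorem fB_S {B : Finset ℕ} {q c : ℕ} (hq : q.Prime) (hc : ¬ q ∣ c) (a a' Y X : ℕ) :
    fB B q (a * c) a' Y X = jacobiSym c q * fB B q a a' (Y * c) X := by
  unfold fB
  split_ifs
  · exact psl_S hq hc a a' Y X
  · exact psp_S hq hc a a' Y X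

theorem fB_ins {B : Finset ℕ} {p q : ℕ} (h : q ≠ p) (a a' Y X : ℕ) :
    fB (insert p B) q a a' Y X = fB B q a a' Y X := by
  unfold fB
  simp only [Finset.mem_insert, h, false_or]

theorem prod_c {P : Finset ℕ} (c p t : ℕ) (hc : c = p ^ t) :
    ∏ q ∈ P, jacobiSym (c : ℤ) q = (∏ q ∈ P, jacobiSym (p : ℤ) q) ^ t := by
  rw [← Finset.prod_pow]
  refine Finset.prod_congr rfl fun q _ => ?_
  rw [hc, Nat.cast_pow, jacobiSym.pow_left]

section flip

variable {P B : Finset ℕ} {p : ℕ} (hP : ∀ q ∈ P, q.Prime) (hp : p ∈ P) (hB : p ∉ B)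

section
include hP hp

theorem ncp {t q : ℕ} (hq : q ∈ P.erase p) : ¬ q ∣ p ^ t := fun h =>
  Finset.ne_of_mem_erase hq ((Nat.prime_dvd_prime_iff_eq (hP q (Finset.mem_of_mem_erase hq))
    (hP p hp)).1 ((hP q (Finset.mem_of_mem_erase hq)).dvd_of_dvd_pow h))

theorem sq_prod (t : ℕ) : ((∏ q ∈ P.erase p, jacobiSym (p : ℤ) q) ^ t) *
    ((∏ q ∈ P.erase p, jacobiSym (p : ℤ) q) ^ t) = 1 := by
  rw [← mul_pow, ← Finset.prod_mul_distrib, Finset.prod_eq_one, one_pow]
  intro q hq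
  refine jsq (hP q (Finset.mem_of_mem_erase hq)) ?_
  have h := ncp hP hp (t := 1) hq
  rwa [pow_one] at h

theorem rest_T (t a a' Y X : ℕ) :
    ∏ q ∈ P.erase p, fB B q a (a' * p ^ t) Y X =
      (∏ q ∈ P.erase p, jacobiSym (p : ℤ) q) ^ t * ∏ q ∈ P.erase p, fB B q a a' Y (X * p ^ t) := by
  rw [← prod_c (p ^ t) p t rfl, ← Finset.prod_mul_distrib]
  exact Finset.prod_congr rfl fun q hq => by
    rw [fB_T (hP q (Finset.mem_of_mem_erase hq)) (ncp hP hp hq)]

theorem rest_S (t a a' Y X : ℕ) :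
    ∏ q ∈ P.erase p, fB B q (a * p ^ t) a' Y X =
      (∏ q ∈ P.erase p, jacobiSym (p : ℤ) q) ^ t * ∏ q ∈ P.erase p, fB B q a a' (Y * p ^ t) X := by
  rw [← prod_c (p ^ t) p t rfl, ← Finset.prod_mul_distrib]
  exact Finset.prod_congr rfl fun q hq => by
    rw [fB_S (hP q (Finset.mem_of_mem_erase hq)) (ncp hP hp hq)]

end

section
include hp

theorem split_ins (a a' Y X : ℕ) :
    ∏ q ∈ P, fB (insert p B) q a a' Y X = psl p a a' Y X * ∏ q ∈ P.erase p, fB B q a a' Y X := by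
  rw [← Finset.mul_prod_erase _ _ hp]
  congr 1
  · unfold fB; rw [if_pos (Finset.mem_insert_self _ _)]
  · exact Finset.prod_congr rfl fun q hq => fB_ins (Finset.ne_of_mem_erase hq) a a' Y X

include hB in
theorem split_B (a a' Y X : ℕ) :
    ∏ q ∈ P, fB B q a a' Y X = psp p a a' Y X * ∏ q ∈ P.erase p, fB B q a a' Y X := by
  rw [← Finset.mul_prod_erase _ _ hp]
  congr 1
  unfold fB; rw [if_neg hB]

end

include hP hp hB

/-- `p` does not divide `T` -/
theorem flip_nd {S T : ℕ} (hT : ¬ p ∣ T) (hST : p ∣ S + T) (hS0 : S ≠ 0) :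
    WB P (insert p B) S T = jacobiSym (-(T : ℤ)) p * WB P B S T := by
  have hp' := hP p hp
  have hT0 : T ≠ 0 := by rintro rfl; exact hT (dvd_zero p)
  unfold WB
  rw [Finset.mul_sum]
  refine Finset.sum_congr rfl fun a ha => ?_
  rw [Finset.mul_sum]
  refine Finset.sum_congr rfl fun a' ha' => ?_
  rw [split_ins hp, split_B hp hB, ← mul_assoc]
  congr 1
  obtain ⟨Y, hY⟩ := Nat.dvd_of_mem_divisors ha
  obtain ⟨X, hX⟩ := Nat.dvd_of_mem_divisors (Finset.mem_of_mem_filter a' ha')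
  have a0 : a ≠ 0 := by rintro rfl; rw [zero_mul] at hY; exact hS0 hY
  have b0 : a' ≠ 0 := by rintro rfl; rw [zero_mul] at hX; exact hT0 hX
  rw [hY, hX, Nat.mul_div_cancel_left _ (Nat.pos_of_ne_zero a0),
    Nat.mul_div_cancel_left _ (Nat.pos_of_ne_zero b0)]
  have hS : ¬ p ∣ S := fun h => hT ((Nat.dvd_add_right h).1 hST)
  have h1 : ¬ p ∣ a := fun h => hS (hY ▸ h.mul_right Y)
  have h2 : ¬ p ∣ a' := fun h => hT (hX ▸ h.mul_right X)
  have h3 : ¬ p ∣ X := fun h => hT (hX ▸ h.mul_left a')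
  unfold psl psp
  rw [if_neg (fun h => h1 h.1), if_neg (fun h => h1 h.1), jn, jn, jc, jc, jc]
  have e3 := jsq hp' h3
  have e4 := je hp'
  linear_combination (-(jacobiSym a p * jacobiSym a' p)) * e3 -
    (jacobiSym a p * jacobiSym a' p * jacobiSym X p * jacobiSym X p) * e4

/-- toggling the `p`-part of `a'` -/
theorem flip_T {S T t T0 : ℕ} (h17 : p ≠ 17) (hS0 : S ≠ 0) (ht : 0 < t)
    (hT : T = T0 * p ^ t) (hT0 : ¬ p ∣ T0) :
    WB P (insert p B) S T = jacobiSym (-(T0 : ℤ)) p *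
      (∏ q ∈ P.erase p, jacobiSym (p : ℤ) q) ^ t * WB P B S T := by
  have hp' := hP p hp
  have e4 := je hp'
  have e5 := sq_prod hP hp t
  have hpt : 0 < p ^ t := pow_pos hp'.pos t
  have hpd : p ∣ p ^ t := dvd_pow_self p ht.ne'
  have hT00 : T0 ≠ 0 := by rintro rfl; exact hT0 (dvd_zero p)
  unfold WB
  rw [Finset.mul_sum]
  refine Finset.sum_congr rfl fun a ha => ?_
  obtain ⟨Y, hY⟩ := Nat.dvd_of_mem_divisors ha
  have a0 : a ≠ 0 := by rintro rfl; rw [zero_mul] at hY; exact hS0 hY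
  rw [hY, Nat.mul_div_cancel_left _ (Nat.pos_of_ne_zero a0)]
  refine toggle hp' ht hT hT0 (17 ∣ ·) (fun x => ?_) _ _ _ ?_ ?_ ?_
  · refine ⟨fun h => ?_, fun h => h.mul_right _⟩
    exact ((by norm_num : Nat.Prime 17).dvd_mul.1 h).resolve_right fun h1 =>
      h17 ((Nat.prime_dvd_prime_iff_eq (by norm_num) hp').1
        ((by norm_num : Nat.Prime 17).dvd_of_dvd_pow h1)).symm
  · rintro a' ⟨X, hX⟩
    have b0 : a' ≠ 0 := by rintro rfl; rw [zero_mul] at hX; exact hT00 hX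
    have n1 : ¬ p ∣ a' := fun h => hT0 (hX ▸ h.mul_right X)
    have n2 : ¬ p ∣ X := fun h => hT0 (hX ▸ h.mul_left a')
    have e1 := jsq hp' n1
    have e2 := jsq hp' n2
    have d1 : T / (a' * p ^ t) = X := by
      rw [hT, hX, show a' * X * p ^ t = a' * p ^ t * X by ring]
      exact Nat.mul_div_cancel_left _ (Nat.mul_pos (Nat.pos_of_ne_zero b0) hpt)
    have d2 : T / a' = X * p ^ t := by
      rw [hT, hX, mul_assoc]
      exact Nat.mul_div_cancel_left _ (Nat.pos_of_ne_zero b0)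
    simp only [d1, d2]
    rw [split_ins hp, split_B hp hB, rest_T hP hp]
    have key : psl p a (a' * p ^ t) Y X = jacobiSym (-(T0 : ℤ)) p * psp p a a' Y (X * p ^ t) := by
      unfold psl psp
      by_cases h1 : p ∣ a
      · rw [if_pos ⟨h1, hpd.mul_left a'⟩, if_pos ⟨h1, hpd.mul_left X⟩, jn, jn, hX, jc, jc, jc]
        linear_combination (-(jacobiSym (-1) p * jacobiSym X p * jacobiSym Y p)) * e1
      · rw [if_neg (fun h => h1 h.1), if_neg (fun h => h1 h.1), jn (a * _),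
          jz hp' (hpd.mul_left (a * a') |> fun h => by rwa [mul_assoc] at h),
          jz hp' (hpd.mul_left (a * X) |> fun h => by rwa [mul_assoc] at h)]
        ring
    rw [key]; ring
  · rintro a' ⟨X, hX⟩
    have b0 : a' ≠ 0 := by rintro rfl; rw [zero_mul] at hX; exact hT00 hX
    have n1 : ¬ p ∣ a' := fun h => hT0 (hX ▸ h.mul_right X)
    have n2 : ¬ p ∣ X := fun h => hT0 (hX ▸ h.mul_left a')
    have e1 := jsq hp' n1
    have e2 := jsq hp' n2
    have d1 : T / (a' * p ^ t) = X := by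
      rw [hT, hX, show a' * X * p ^ t = a' * p ^ t * X by ring]
      exact Nat.mul_div_cancel_left _ (Nat.mul_pos (Nat.pos_of_ne_zero b0) hpt)
    have d2 : T / a' = X * p ^ t := by
      rw [hT, hX, mul_assoc]
      exact Nat.mul_div_cancel_left _ (Nat.pos_of_ne_zero b0)
    simp only [d1, d2]
    rw [split_ins hp, split_B hp hB, rest_T hP hp]
    have key : psl p a a' Y (X * p ^ t) = jacobiSym (-(T0 : ℤ)) p * psp p a (a' * p ^ t) Y X := by
      unfold psl psp
      rw [if_neg (fun h => n1 h.2), if_neg (fun h => n2 h.2), jn, jn, hX, jc, jc, jc]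
      linear_combination (-(jacobiSym (-1) p * jacobiSym (-1) p * jacobiSym a p *
        jacobiSym a' p)) * e2 - (jacobiSym a p * jacobiSym a' p) * e4
    rw [key]
    linear_combination (-(jacobiSym (-(T0 : ℤ)) p * psp p a (a' * p ^ t) Y X *
      ∏ q ∈ P.erase p, fB B q a a' Y (X * p ^ t))) * e5
  · rintro a' ⟨X, hX⟩ h1 h2
    have b0 : a' ≠ 0 := by
      rintro rfl
      rw [zero_mul] at hX
      rw [hX] at hT
      rcases Nat.mul_eq_zero.1 hT.symm with h | h
      · exact hT00 h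
      · exact hpt.ne' h
    have d2 : T / a' = X := by rw [hX]; exact Nat.mul_div_cancel_left _ (Nat.pos_of_ne_zero b0)
    have n2 : p ∣ X := by
      by_contra h3
      apply h2
      have h4 : p ^ t ∣ a' * X := by rw [← hX, hT]; exact dvd_mul_left _ _
      exact Nat.Coprime.dvd_of_dvd_mul_right
        (Nat.Coprime.pow_left t ((Nat.Prime.coprime_iff_not_dvd hp').2 h3)) h4
    simp only [d2]
    rw [split_ins hp, split_B hp hB]
    have k1 : psp p a a' Y X = 0 := by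
      unfold psp
      split_ifs
      · exact jz hp' (h1.mul_right Y)
      · rw [jn, jz hp' (n2.mul_left a), mul_zero]
    have k2 : psl p a a' Y X = 0 := by
      unfold psl
      split_ifs
      · rw [jn, jz hp' (n2.mul_right Y), mul_zero]
      · exact jz hp' (h1.mul_left a)
    rw [k1, k2, zero_mul]
    exact ⟨rfl, rfl⟩

/-- toggling the `p`-part of `a` -/
theorem flip_S {S T s S0 : ℕ} (hT0 : T ≠ 0) (hT : p ∣ T) (hs : 0 < s)
    (hS : S = S0 * p ^ s) (hS0 : ¬ p ∣ S0) :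
    WB P (insert p B) S T = jacobiSym (S0 : ℤ) p *
      (∏ q ∈ P.erase p, jacobiSym (p : ℤ) q) ^ s * WB P B S T := by
  have hp' := hP p hp
  have e4 := je hp'
  have e5 := sq_prod hP hp s
  have hps : 0 < p ^ s := pow_pos hp'.pos s
  have hpd : p ∣ p ^ s := dvd_pow_self p hs.ne'
  have hS00 : S0 ≠ 0 := by rintro rfl; exact hS0 (dvd_zero p)
  have fT : ∀ Z : ℕ, Z.divisors.filter (fun _ => True) = Z.divisors := fun Z =>
    Finset.filter_true_of_mem fun _ _ => trivial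
  have main := toggle hp' hs hS hS0 (fun _ => True) (fun _ => Iff.rfl)
    (fun a => ∑ a' ∈ T.divisors.filter (17 ∣ ·), ∏ p ∈ P, fB B p a a' (S / a) (T / a'))
    (fun a => ∑ a' ∈ T.divisors.filter (17 ∣ ·), ∏ q ∈ P, fB (insert p B) q a a' (S / a) (T / a'))
    (jacobiSym (S0 : ℤ) p * (∏ q ∈ P.erase p, jacobiSym (p : ℤ) q) ^ s) ?_ ?_ ?_
  · rw [fT] at main
    exact main
  · rintro a ⟨Y, hY⟩
    have b0 : a ≠ 0 := by rintro rfl; rw [zero_mul] at hY; exact hS00 hY
    have n1 : ¬ p ∣ a := fun h => hS0 (hY ▸ h.mul_right Y)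
    have n2 : ¬ p ∣ Y := fun h => hS0 (hY ▸ h.mul_left a)
    have e1 := jsq hp' n1
    have e2 := jsq hp' n2
    have d1 : S / (a * p ^ s) = Y := by
      rw [hS, hY, show a * Y * p ^ s = a * p ^ s * Y by ring]
      exact Nat.mul_div_cancel_left _ (Nat.mul_pos (Nat.pos_of_ne_zero b0) hps)
    have d2 : S / a = Y * p ^ s := by
      rw [hS, hY, mul_assoc]
      exact Nat.mul_div_cancel_left _ (Nat.pos_of_ne_zero b0)
    simp only [d1, d2]
    rw [Finset.mul_sum]
    refine Finset.sum_congr rfl fun a' ha' => ?_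
    obtain ⟨X, hX⟩ := Nat.dvd_of_mem_divisors (Finset.mem_of_mem_filter a' ha')
    have c0 : a' ≠ 0 := by rintro rfl; rw [zero_mul] at hX; exact hT0 hX
    rw [hX, Nat.mul_div_cancel_left _ (Nat.pos_of_ne_zero c0)]
    rw [split_ins hp, split_B hp hB, rest_S hP hp]
    have key : psl p (a * p ^ s) a' Y X = jacobiSym (S0 : ℤ) p * psp p a a' (Y * p ^ s) X := by
      unfold psl psp
      by_cases h1 : p ∣ a'
      · rw [if_pos ⟨hpd.mul_left a, h1⟩, if_neg (fun h => n1 h.1), jn, jn, hY, jc, jc, jc]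
        linear_combination (-(jacobiSym (-1) p * jacobiSym X p * jacobiSym Y p)) * e1
      · have h2 : p ∣ X := by
          rw [hX] at hT
          exact (hp'.dvd_mul.1 hT).resolve_left h1
        rw [if_neg (fun h => h1 h.2), if_neg (fun h => n1 h.1), jn,
          jz hp' ((hpd.mul_left a).mul_right a'), jz hp' (h2.mul_left a)]
        ring
    rw [key]; ring
  · rintro a ⟨Y, hY⟩
    have b0 : a ≠ 0 := by rintro rfl; rw [zero_mul] at hY; exact hS00 hY
    have n1 : ¬ p ∣ a := fun h => hS0 (hY ▸ h.mul_right Y)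
    have n2 : ¬ p ∣ Y := fun h => hS0 (hY ▸ h.mul_left a)
    have e1 := jsq hp' n1
    have e2 := jsq hp' n2
    have d1 : S / (a * p ^ s) = Y := by
      rw [hS, hY, show a * Y * p ^ s = a * p ^ s * Y by ring]
      exact Nat.mul_div_cancel_left _ (Nat.mul_pos (Nat.pos_of_ne_zero b0) hps)
    have d2 : S / a = Y * p ^ s := by
      rw [hS, hY, mul_assoc]
      exact Nat.mul_div_cancel_left _ (Nat.pos_of_ne_zero b0)
    simp only [d1, d2]
    rw [Finset.mul_sum]
    refine Finset.sum_congr rfl fun a' ha' => ?_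
    obtain ⟨X, hX⟩ := Nat.dvd_of_mem_divisors (Finset.mem_of_mem_filter a' ha')
    have c0 : a' ≠ 0 := by rintro rfl; rw [zero_mul] at hX; exact hT0 hX
    rw [hX, Nat.mul_div_cancel_left _ (Nat.pos_of_ne_zero c0)]
    rw [split_ins hp, split_B hp hB, rest_S hP hp]
    have key : psl p a a' (Y * p ^ s) X = jacobiSym (S0 : ℤ) p * psp p (a * p ^ s) a' Y X := by
      unfold psl psp
      by_cases h1 : p ∣ X
      · rw [if_neg (fun h => n1 h.1), if_pos ⟨hpd.mul_left a, h1⟩, hY, jc, jc, jc]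
        linear_combination (-(jacobiSym a p * jacobiSym a' p)) * e2
      · have h2 : p ∣ a' := by
          rw [hX] at hT
          exact (hp'.dvd_mul.1 hT).resolve_right h1
        rw [if_neg (fun h => n1 h.1), if_neg (fun h => h1 h.2), jn,
          jz hp' (h2.mul_left a), jz hp' ((hpd.mul_left a).mul_right X)]
        ring
    rw [key]
    linear_combination (-(jacobiSym (S0 : ℤ) p * psp p (a * p ^ s) a' Y X *
      ∏ q ∈ P.erase p, fB B q a a' (Y * p ^ s) X)) * e5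
  · rintro a ⟨Y, hY⟩ h1 h2
    have b0 : a ≠ 0 := by
      rintro rfl
      rw [zero_mul] at hY
      rw [hY] at hS
      rcases Nat.mul_eq_zero.1 hS.symm with h | h
      · exact hS00 h
      · exact hps.ne' h
    have d2 : S / a = Y := by rw [hY]; exact Nat.mul_div_cancel_left _ (Nat.pos_of_ne_zero b0)
    have n2 : p ∣ Y := by
      by_contra h3
      apply h2
      have h4 : p ^ s ∣ a * Y := by rw [← hY, hS]; exact dvd_mul_left _ _
      exact Nat.Coprime.dvd_of_dvd_mul_right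
        (Nat.Coprime.pow_left s ((Nat.Prime.coprime_iff_not_dvd hp').2 h3)) h4
    simp only [d2]
    refine ⟨Finset.sum_eq_zero fun a' _ => ?_, Finset.sum_eq_zero fun a' _ => ?_⟩
    · rw [split_B hp hB]
      have k1 : psp p a a' Y (T / a') = 0 := by
        unfold psp
        split_ifs
        · exact jz hp' (n2.mul_left a')
        · rw [jn, jz hp' (h1.mul_right _), mul_zero]
      rw [k1, zero_mul]
    · rw [split_ins hp]
      have k2 : psl p a a' Y (T / a') = 0 := by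
        unfold psl
        split_ifs
        · rw [jn, jz hp' (n2.mul_left _), mul_zero]
        · exact jz hp' (h1.mul_right a')
      rw [k2, zero_mul]

end flip

/-! ### the factor of a flip -/

open Pool.Agent.N295.P15 (Fd pf_prime pf_dvd)
open Pool.Agent.Y574.Z7 (chp chp_mul chp_one chp_self chp_nd jac_prod)

theorem rec_p {n : ℕ} (h : Fd n) {p : ℕ} (hp : p ∈ n.primeFactors) :
    ∏ q ∈ n.primeFactors.erase p, jacobiSym (p : ℤ) q = jacobiSym ((n / p : ℕ) : ℤ) p := by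
  have h1 := h.Ps_p hp
  unfold Pool.Agent.N295.P15.Ps at h1
  rw [← Finset.mul_prod_erase _ _ hp, chp_self (pf_prime hp), one_mul] at h1
  have h2 : chp p n = jacobiSym ((n / p : ℕ) : ℤ) p := by
    unfold chp
    rw [h.fac1 hp, pow_one]
  rw [← h2, ← h1]
  refine Finset.prod_congr rfl fun q hq => (chp_nd fun hd => ?_).symm
  exact (Finset.ne_of_mem_erase hq)
    ((Nat.prime_dvd_prime_iff_eq (pf_prime (Finset.mem_of_mem_erase hq)) (pf_prime hp)).1 hd)

theorem step {n : ℕ} (h : Fd n) {k S T : ℕ} (hk : k = 1 ∨ k = 2) (hST : S + T = k * n)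
    (hS0 : S ≠ 0) (hT0 : T ≠ 0) {B : Finset ℕ} {p : ℕ} (hp : p ∈ n.primeFactors) (hB : p ∉ B)
    (h17 : p ≠ 17) :
    WB n.primeFactors (insert p B) S T =
      jacobiSym (-1) p * sgp k n p T * WB n.primeFactors B S T := by
  have hP : ∀ q ∈ n.primeFactors, q.Prime := fun q hq => pf_prime hq
  have hp' := pf_prime hp
  have e4 := je hp'
  have hkn : p ∣ k * n := (pf_dvd hp).mul_left k
  by_cases hT : p ∣ T
  · have hS : p ∣ S := (Nat.dvd_add_left hT).1 (hST ▸ hkn)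
    obtain ⟨T1, hT1⟩ := hT
    obtain ⟨S1, hS1⟩ := hS
    obtain ⟨n1, hn1⟩ := pf_dvd hp
    have dn : n / p = n1 := by rw [hn1]; exact Nat.mul_div_cancel_left _ hp'.pos
    have dT : (T : ℤ) / p = T1 := by
      rw [hT1, Nat.cast_mul]
      exact Int.mul_ediv_cancel_left _ (by exact_mod_cast hp'.ne_zero)
    have hn1' : ¬ p ∣ n1 := fun h1 => by
      have h2 : p * p ∣ n := by rw [hn1]; exact mul_dvd_mul_left p h1
      exact hp'.one_lt.ne' (Nat.isUnit_iff.1 (h.sq p h2))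
    have hk' : ¬ p ∣ k := fun h1 => by
      rcases hk with rfl | rfl
      · exact hp'.one_lt.ne' (Nat.dvd_one.1 h1)
      · exact h.ne2 hp ((Nat.prime_dvd_prime_iff_eq hp' Nat.prime_two).1 h1)
    have hsum : S1 + T1 = k * n1 := by
      have h1 : p * (S1 + T1) = p * (k * n1) := by
        rw [mul_add, ← hS1, ← hT1, hST, hn1]; ring
      exact Nat.eq_of_mul_eq_mul_left hp'.pos h1
    have e5 := jsq hp' hn1'
    have hTd : (p : ℤ) ∣ (T : ℤ) := Int.natCast_dvd_natCast.2 ⟨T1, hT1⟩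
    unfold sgp
    rw [if_pos hTd, dT, dn]
    simp only [Int.natCast_dvd_natCast]
    by_cases h2 : p ∣ T1
    · have hS1' : ¬ p ∣ S1 := fun h3 => by
        have h4 : p ∣ k * n1 := hsum ▸ dvd_add h3 h2
        rcases hp'.dvd_mul.1 h4 with h5 | h5
        · exact hk' h5
        · exact hn1' h5
      have e1 : jacobiSym (S1 : ℤ) p = jacobiSym k p * jacobiSym n1 p := by
        rw [← jc]
        refine jacobiSym.mod_left' ?_
        rw [← hsum]
        obtain ⟨T2, hT2⟩ := h2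
        push_cast
        rw [hT2, Nat.cast_mul]
        simp
      rw [flip_S hP hp hB hT0 ⟨T1, hT1⟩ one_pos (by rw [hS1, pow_one, mul_comm]) hS1',
        rec_p h hp, dn, pow_one, if_pos h2, e1, jn]
      linear_combination (jacobiSym k p * WB n.primeFactors B S T) * e5 -
        (jacobiSym k p * WB n.primeFactors B S T) * e4
    · rw [flip_T hP hp hB h17 hS0 one_pos (by rw [hT1, pow_one, mul_comm]) h2,
        rec_p h hp, dn, pow_one, if_neg h2, jn, ← Nat.cast_mul, jc]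
      ring
  · have hTd : ¬ (p : ℤ) ∣ (T : ℤ) := fun h1 => hT (Int.natCast_dvd_natCast.1 h1)
    rw [flip_nd hP hp hB hT (hST ▸ hkn) hS0]
    unfold sgp
    rw [if_neg hTd, jn]

theorem flips {n : ℕ} (h : Fd n) {k S T : ℕ} (hk : k = 1 ∨ k = 2) (hST : S + T = k * n)
    (hS0 : S ≠ 0) (hT0 : T ≠ 0) (h17 : ¬ 17 ∣ n) (B : Finset ℕ) (hB : B ⊆ n.primeFactors) :
    WB n.primeFactors B S T =
      (∏ p ∈ B, jacobiSym (-1) p * sgp k n p T) * WB n.primeFactors ∅ S T := by
  induction B using Finset.induction_on with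
  | empty => rw [Finset.prod_empty, one_mul]
  | insert p B hp ih =>
    have h1 := hB (Finset.mem_insert_self _ _)
    rw [step h hk hST hS0 hT0 h1 hp (fun h2 => h17 (h2 ▸ pf_dvd h1)),
      ih ((Finset.subset_insert _ _).trans hB), Finset.prod_insert hp]
    ring

theorem WB_empty (n S T : ℕ) : WB n.primeFactors ∅ S T = WW n S T := rfl

theorem WB_A {A m : ℕ} (hc : Nat.Coprime A m) (S T : ℕ) :
    WB (A * m).primeFactors A.primeFactors S T = Wg A m S T := by
  unfold WB Wg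
  refine Finset.sum_congr rfl fun a _ => Finset.sum_congr rfl fun a' _ => ?_
  rw [Nat.Coprime.primeFactors_mul hc, Finset.prod_union (Nat.Coprime.disjoint_primeFactors hc)]
  congr 1
  · refine Finset.prod_congr rfl fun p hp => ?_
    unfold fB; rw [if_pos hp]
  · refine Finset.prod_congr rfl fun p hp => ?_
    unfold fB
    rw [if_neg (Finset.disjoint_right.1 (Nat.Coprime.disjoint_primeFactors hc) hp)]

theorem Pr_n {A m : ℕ} (h : Pr A m) : Cm (A * m) := by
  obtain ⟨⟨a1, a2, a3⟩, ⟨b1, b2, b3⟩, h3⟩ := h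
  refine ⟨(Nat.squarefree_mul h3).2 ⟨a1, b1⟩, ?_, ?_⟩
  · rw [Nat.mul_mod, a2, b2]
  · rw [Nat.cast_mul, jacobiSym.mul_left, a3, b3]; norm_num

theorem Wg_eq {A m : ℕ} (h : Pr A m) {k S T : ℕ} (hk : k = 1 ∨ k = 2)
    (hST : S + T = k * (A * m)) (hS0 : S ≠ 0) (hT0 : T ≠ 0) :
    Wg A m S T = sgn k A (A * m) T * WW (A * m) S T := by
  obtain ⟨n1, n2, n3⟩ := Pr_n h
  obtain ⟨⟨a1, a2, a3⟩, ⟨b1, b2, b3⟩, h3⟩ := h
  have hA : A ≠ 0 := a1.ne_zero
  have hm : m ≠ 0 := b1.ne_zero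
  have h17 : ¬ 17 ∣ A * m := fun h1 => by
    rw [js_zero (by norm_num : Nat.Prime 17) (Int.natCast_dvd_natCast.2 h1)] at n3
    norm_num at n3
  have hsub : A.primeFactors ⊆ (A * m).primeFactors :=
    Nat.primeFactors_mono (dvd_mul_right A m) (mul_ne_zero hA hm)
  have e1 : ∏ p ∈ A.primeFactors, jacobiSym (-1) p = 1 := by
    rw [← jac_prod _ _ fun q hq => (pf_prime hq).ne_zero, Nat.prod_primeFactors_of_squarefree a1,
      jacobiSym.at_neg_one (Nat.odd_iff.2 (by omega)), ZMod.χ₄_nat_one_mod_four a2]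
  rw [← WB_A h3, flips ⟨n1, n2⟩ hk hST hS0 hT0 h17 _ hsub, WB_empty,
    Finset.prod_mul_distrib, e1, one_mul]
  rfl

/-- **C2AG** -/
theorem t_C2AG : S_C2AG := by
  intro A m h T hT0 hTn h17
  rw [Wg_eq h (Or.inl rfl) (by rw [one_mul]; omega) (by omega) (by omega),
    Pool.Agent.N816.P17.C2.t_C2A (A * m) (Pr_n h) T hT0 hTn h17]
  ring

theorem sgn_two {A m U : ℕ} (h : Pr A m) :
    sgn 2 A (A * m) ((2 * U : ℕ) : ℤ) = jacobiSym 2 A * sgn 1 A (A * m) (U : ℤ) := by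
  obtain ⟨⟨a1, a2, a3⟩, ⟨b1, b2, b3⟩, h3⟩ := h
  have e1 : jacobiSym 2 A = ∏ p ∈ A.primeFactors, jacobiSym 2 p := by
    rw [← jac_prod _ _ fun q hq => (pf_prime hq).ne_zero, Nat.prod_primeFactors_of_squarefree a1]
  unfold sgn
  rw [e1, ← Finset.prod_mul_distrib]
  refine Finset.prod_congr rfl fun p hp => ?_
  have hp' := pf_prime hp
  have hp2 : p ≠ 2 := by
    rintro rfl
    have := pf_dvd hp
    omega
  have c2 : ∀ x : ℤ, (p : ℤ) ∣ 2 * x ↔ (p : ℤ) ∣ x := fun x => by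
    refine ⟨fun h1 => ?_, fun h1 => h1.mul_left 2⟩
    refine ((Nat.prime_iff_prime_int.1 hp').dvd_or_dvd h1).resolve_left fun h2 => ?_
    have h4 : p ∣ 2 := by exact_mod_cast h2
    exact hp2 ((Nat.prime_dvd_prime_iff_eq hp' Nat.prime_two).1 h4)
  unfold sgp
  rw [Nat.cast_mul, Nat.cast_ofNat]
  simp only [c2]
  by_cases h1 : (p : ℤ) ∣ U
  · rw [if_pos h1, if_pos h1, Int.mul_ediv_assoc _ h1]
    simp only [c2]
    by_cases h2 : (p : ℤ) ∣ U / p
    · rw [if_pos h2, if_pos h2, ← jacobiSym.mul_left]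
      norm_num
    · rw [if_neg h2, if_neg h2, mul_assoc, jacobiSym.mul_left]
  · rw [if_neg h1, if_neg h1, jacobiSym.mul_left]

/-- **C2BG** -/
theorem t_C2BG : S_C2BG := by
  intro A m h T hT0 hTn h17
  rw [Wg_eq h (Or.inr rfl) (by omega) (by omega) (by omega),
    Pool.Agent.N816.P17.C2.t_C2B (A * m) (Pr_n h) T hT0 hTn h17]
  by_cases h2 : 2 ∣ T
  · rw [if_pos h2, if_pos h2]
    obtain ⟨U, rfl⟩ := h2
    rw [sgn_two h, Nat.mul_div_cancel_left _ two_pos]
    ring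
  · rw [if_neg h2, if_neg h2]; ring

end Pool.Agent.N816.P17.Flip
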