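import Pool.Agent.N816.P17.C1A
import Pool.Agent.N972.P17.Defs3

/-!
# P17: the forms of discriminant `4` and the cusps as factorizations, ramified case
-/

set_option autoImplicit false

namespace Pool.Agent.N816.P17.CA

open Finset
open Pool.Agent.N969.P15 (un chE c2)
open Pool.Agent.N972.P17 (Cr Cre S_C1AR S_C1ARE)

/-- **C1AR** -/
theorem t_C1AR : S_C1AR := by
  intro n hn
  have h4 := hn.2.1
  exact main (by omega) (fun u => jacobiSym u n)
    (fun u => Pool.Agent.N973.P15.C.jac_odd h4 u)

/-- **C1ARE** -/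
theorem t_C1ARE : S_C1ARE := by
  intro n hn
  have h1 : 1 < n := by
    obtain ⟨⟨m, hm, hs, -⟩, -⟩ := hn
    have := Nat.pos_of_ne_zero hs.ne_zero
    omega
  exact main h1 (chE n) (fun u => Pool.Agent.N973.P15.C.chE_odd hn.1 u)

end Pool.Agent.N816.P17.CA
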