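import Pool.Agent.N816.P17.Red

/-!
The rotations of the two lattices and the mass formula (project P17, TORS).
-/

set_option autoImplicit false
set_option linter.all false

namespace Pool.Agent.N816.P17

open Finset Matrix
open Pool.Agent.Y288.Z7 (exists_round cols dd3 det_cols cols_eq)
open Pool.Agent.N972.P17 (G1 G2 PosF S_TORS)

theorem conj_apply (A X : Matrix (Fin 3) (Fin 3) ℤ) (i j : Fin 3) :
    (Aᵀ * X * A) i j = bi X (fun k => A k i) (fun k => A k j) := by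
  rw [Matrix.mul_assoc, mul_apply', ← bi_eq]
  rfl

theorem gram_iff {G : Matrix (Fin 3) (Fin 3) ℤ} (hG : Sy G) (v w z : Fin 3 → ℤ)
    (M : Matrix (Fin 3) (Fin 3) ℤ) (hM : Sy M) :
    (cols v w z)ᵀ * G * cols v w z = M ↔ bi G v v = M 0 0 ∧ bi G v w = M 0 1 ∧ bi G v z = M 0 2 ∧
      bi G w w = M 1 1 ∧ bi G w z = M 1 2 ∧ bi G z z = M 2 2 := by
  obtain ⟨h10, h20, h21⟩ := hM
  have c0 : (fun k => cols v w z k 0) = v := rfl
  have c1 : (fun k => cols v w z k 1) = w := rfl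
  have c2 : (fun k => cols v w z k 2) = z := rfl
  constructor
  · intro h
    have hh : ∀ i j, bi G (fun k => cols v w z k i) (fun k => cols v w z k j) = M i j := fun i j => by
      rw [← h, conj_apply]
    exact ⟨hh 0 0, hh 0 1, hh 0 2, hh 1 1, hh 1 2, hh 2 2⟩
  · rintro ⟨h1, h2, h3, h4, h5, h6⟩
    ext i j
    rw [conj_apply]
    fin_cases i <;> fin_cases j
    · exact h1
    · exact h2
    · exact h3
    · exact (bi_comm hG _ _).trans (h2.trans h10.symm)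
    · exact h4
    · exact h5
    · exact (bi_comm hG _ _).trans (h3.trans h20.symm)
    · exact (bi_comm hG _ _).trans (h5.trans h21.symm)
    · exact h6

/-- the number of rotations from lists of the vectors with the norms of the basis -/
theorem card_rot {G : Matrix (Fin 3) (Fin 3) ℤ} (hG : Sy G) {a b c : ℕ}
    (u : Fin a → Fin 3 → ℤ) (v : Fin b → Fin 3 → ℤ) (w : Fin c → Fin 3 → ℤ)
    (iu : Function.Injective u) (iv : Function.Injective v) (iw : Function.Injective w)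
    (nu : ∀ i, bi G (u i) (u i) = G 0 0) (nv : ∀ i, bi G (v i) (v i) = G 1 1)
    (nw : ∀ i, bi G (w i) (w i) = G 2 2)
    (su : ∀ x, bi G x x = G 0 0 → ∃ i, u i = x) (sv : ∀ x, bi G x x = G 1 1 → ∃ i, v i = x)
    (sw : ∀ x, bi G x x = G 2 2 → ∃ i, w i = x) :
    Nat.card {R : Matrix (Fin 3) (Fin 3) ℤ // Rᵀ * G * R = G ∧ R.det = 1} =
      (Finset.univ.filter fun p : Fin a × Fin b × Fin c =>
        bi G (u p.1) (v p.2.1) = G 0 1 ∧ bi G (u p.1) (w p.2.2) = G 0 2 ∧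
          bi G (v p.2.1) (w p.2.2) = G 1 2 ∧ dd3 (u p.1) (v p.2.1) (w p.2.2) = 1).card := by
  classical
  have key : ∀ x y z : Fin 3 → ℤ, ((cols x y z)ᵀ * G * cols x y z = G ∧ (cols x y z).det = 1) ↔
      (bi G x x = G 0 0 ∧ bi G x y = G 0 1 ∧ bi G x z = G 0 2 ∧ bi G y y = G 1 1 ∧
        bi G y z = G 1 2 ∧ bi G z z = G 2 2) ∧ dd3 x y z = 1 := by
    intro x y z
    rw [det_cols, gram_iff hG x y z G hG]
  let F : {p : Fin a × Fin b × Fin c // bi G (u p.1) (v p.2.1) = G 0 1 ∧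
      bi G (u p.1) (w p.2.2) = G 0 2 ∧ bi G (v p.2.1) (w p.2.2) = G 1 2 ∧
        dd3 (u p.1) (v p.2.1) (w p.2.2) = 1} →
      {R : Matrix (Fin 3) (Fin 3) ℤ // Rᵀ * G * R = G ∧ R.det = 1} := fun p =>
    ⟨cols (u p.1.1) (v p.1.2.1) (w p.1.2.2), (key _ _ _).2
      ⟨⟨nu _, p.2.1, p.2.2.1, nv _, p.2.2.2.1, nw _⟩, p.2.2.2.2⟩⟩
  have hF : Function.Bijective F := by
    constructor
    · rintro ⟨⟨i, j, k⟩, hp⟩ ⟨⟨i', j', k'⟩, hp'⟩ h
      have h1 := congrArg Subtype.val h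
      have h2 : ∀ r c, cols (u i) (v j) (w k) r c = cols (u i') (v j') (w k') r c :=
        fun r c => congrFun (congrFun h1 r) c
      have e1 : i = i' := iu (funext fun r => h2 r 0)
      have e2 : j = j' := iv (funext fun r => h2 r 1)
      have e3 : k = k' := iw (funext fun r => h2 r 2)
      subst e1; subst e2; subst e3
      rfl
    · rintro ⟨R, hR⟩
      have hR' := hR
      rw [cols_eq R, key] at hR'
      obtain ⟨⟨h1, h2, h3, h4, h5, h6⟩, h7⟩ := hR'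
      obtain ⟨i, hi⟩ := su (fun i => R i 0) h1
      obtain ⟨j, hj⟩ := sv (fun i => R i 1) h4
      obtain ⟨k, hk⟩ := sw (fun i => R i 2) h6
      refine ⟨⟨(i, j, k), ?_⟩, ?_⟩
      · simp only [hi, hj, hk]
        exact ⟨h2, h3, h5, h7⟩
      · apply Subtype.ext
        show cols (u i) (v j) (w k) = R
        rw [hi, hj, hk]
        exact (cols_eq R).symm
  rw [← Nat.card_eq_of_bijective F hF, Nat.card_eq_fintype_card, Fintype.card_subtype]

theorem syG1 : Sy G1 := ⟨rfl, rfl, rfl⟩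
theorem syG2 : Sy G2 := ⟨rfl, rfl, rfl⟩

theorem biG1 (v w : Fin 3 → ℤ) : bi G1 v w = 7 * (v 0 * w 0) + 11 * (v 1 * w 1) +
    20 * (v 2 * w 2) - 3 * (v 0 * w 1 + v 1 * w 0) -
    2 * (v 0 * w 2 + v 2 * w 0) - 4 * (v 1 * w 2 + v 2 * w 1) := by
  have e00 : G1 0 0 = 7 := rfl
  have e01 : G1 0 1 = -3 := rfl
  have e02 : G1 0 2 = -2 := rfl
  have e10 : G1 1 0 = -3 := rfl
  have e11 : G1 1 1 = 11 := rfl
  have e12 : G1 1 2 = -4 := rfl
  have e20 : G1 2 0 = -2 := rfl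
  have e21 : G1 2 1 = -4 := rfl
  have e22 : G1 2 2 = 20 := rfl
  simp only [bi, e00, e01, e02, e10, e11, e12, e20, e21, e22]; ring

theorem biG2 (v w : Fin 3 → ℤ) : bi G2 v w = 3 * (v 0 * w 0) + 23 * (v 1 * w 1) +
    23 * (v 2 * w 2) - (v 0 * w 1 + v 1 * w 0) -
    (v 0 * w 2 + v 2 * w 0) - 11 * (v 1 * w 2 + v 2 * w 1) := by
  have e00 : G2 0 0 = 3 := rfl
  have e01 : G2 0 1 = -1 := rfl
  have e02 : G2 0 2 = -1 := rfl
  have e10 : G2 1 0 = -1 := rfl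
  have e11 : G2 1 1 = 23 := rfl
  have e12 : G2 1 2 = -11 := rfl
  have e20 : G2 2 0 = -1 := rfl
  have e21 : G2 2 1 = -11 := rfl
  have e22 : G2 2 2 = 23 := rfl
  simp only [bi, e00, e01, e02, e10, e11, e12, e20, e21, e22]; ring

/-! ### small vectors of the first lattice -/

theorem seven_G1 (x y z : ℤ) : 7 * (7 * (x * x) + 11 * (y * y) + 20 * (z * z) - 3 * (x * y + y * x) -
    2 * (x * z + z * x) - 4 * (y * z + z * y)) = (7 * x - 3 * y - 2 * z) ^ 2 +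
      68 * (y ^ 2 - y * z + 2 * z ^ 2) := by ring

theorem small1 {x y z n : ℤ} (hn : n ≤ 20) (h : 7 * (x * x) + 11 * (y * y) + 20 * (z * z) -
    3 * (x * y + y * x) - 2 * (x * z + z * x) - 4 * (y * z + z * y) = n) :
    (-2 ≤ x ∧ x ≤ 2) ∧ (-1 ≤ y ∧ y ≤ 1) ∧ -1 ≤ z ∧ z ≤ 1 := by
  have h7 := seven_G1 x y z
  rw [h] at h7
  have hq : y ^ 2 - y * z + 2 * z ^ 2 ≤ 2 := by
    have h1 : 68 * (y ^ 2 - y * z + 2 * z ^ 2) ≤ 140 := by
      nlinarith [sq_nonneg (7 * x - 3 * y - 2 * z)]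
    omega
  have hz2 : 7 * z ^ 2 ≤ 8 := by nlinarith [sq_nonneg (2 * y - z)]
  have hy2 : 7 * y ^ 2 ≤ 16 := by nlinarith [sq_nonneg (4 * z - y)]
  have hz1 : -1 ≤ z ∧ z ≤ 1 := by constructor <;> nlinarith
  have hy1 : -1 ≤ y ∧ y ≤ 1 := by constructor <;> nlinarith
  have hX : (7 * x - 3 * y - 2 * z) ^ 2 ≤ 140 := by
    nlinarith [sq_nonneg (2 * y - z), sq_nonneg z]
  have hX1 : -12 ≤ 7 * x - 3 * y - 2 * z ∧ 7 * x - 3 * y - 2 * z ≤ 12 := by
    constructor <;> nlinarith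
  refine ⟨?_, hy1, hz1⟩
  constructor <;> omega

def a7 : Fin 2 → Fin 3 → ℤ := ![![1, 0, 0], ![-1, 0, 0]]
def a11 : Fin 2 → Fin 3 → ℤ := ![![0, 1, 0], ![0, -1, 0]]
def a20 : Fin 4 → Fin 3 → ℤ := ![![0, 0, 1], ![0, 0, -1], ![1, 1, 1], ![-1, -1, -1]]

theorem vec_eta (v : Fin 3 → ℤ) : v = ![v 0, v 1, v 2] := by ext i; fin_cases i <;> rfl

theorem a7_surj (v : Fin 3 → ℤ) (h : bi G1 v v = 7) : ∃ i, a7 i = v := by
  rw [biG1] at h
  obtain ⟨⟨x1, x2⟩, ⟨y1, y2⟩, z1, z2⟩ := small1 (by norm_num) h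
  rw [vec_eta v]
  generalize v 0 = x at *
  generalize v 1 = y at *
  generalize v 2 = z at *
  interval_cases x <;> interval_cases y <;> interval_cases z <;>
    first
    | exact ⟨0, rfl⟩
    | exact ⟨1, rfl⟩
    | (exfalso; revert h; decide)

theorem a11_surj (v : Fin 3 → ℤ) (h : bi G1 v v = 11) : ∃ i, a11 i = v := by
  rw [biG1] at h
  obtain ⟨⟨x1, x2⟩, ⟨y1, y2⟩, z1, z2⟩ := small1 (by norm_num) h
  rw [vec_eta v]
  generalize v 0 = x at *
  generalize v 1 = y at *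
  generalize v 2 = z at *
  interval_cases x <;> interval_cases y <;> interval_cases z <;>
    first
    | exact ⟨0, rfl⟩
    | exact ⟨1, rfl⟩
    | (exfalso; revert h; decide)

theorem a20_surj (v : Fin 3 → ℤ) (h : bi G1 v v = 20) : ∃ i, a20 i = v := by
  rw [biG1] at h
  obtain ⟨⟨x1, x2⟩, ⟨y1, y2⟩, z1, z2⟩ := small1 (by norm_num) h
  rw [vec_eta v]
  generalize v 0 = x at *
  generalize v 1 = y at *
  generalize v 2 = z at *
  interval_cases x <;> interval_cases y <;> interval_cases z <;>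
    first
    | exact ⟨0, rfl⟩
    | exact ⟨1, rfl⟩
    | exact ⟨2, rfl⟩
    | exact ⟨3, rfl⟩
    | (exfalso; revert h; decide)

theorem no3 (v : Fin 3 → ℤ) (h : bi G1 v v = 3) : False := by
  rw [biG1] at h
  obtain ⟨⟨x1, x2⟩, ⟨y1, y2⟩, z1, z2⟩ := small1 (by norm_num) h
  generalize v 0 = x at *
  generalize v 1 = y at *
  generalize v 2 = z at *
  interval_cases x <;> interval_cases y <;> interval_cases z <;> (revert h; decide)

/-! ### small vectors of the second lattice -/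

theorem small2 {x y z n : ℤ} (hn : n ≤ 23) (h : 3 * (x * x) + 23 * (y * y) + 23 * (z * z) -
    (x * y + y * x) - (x * z + z * x) - 11 * (y * z + z * y) = n) :
    (-3 ≤ x ∧ x ≤ 3) ∧ (-1 ≤ y ∧ y ≤ 1) ∧ -1 ≤ z ∧ z ≤ 1 := by
  have h7 : 3 * (3 * (x * x) + 23 * (y * y) + 23 * (z * z) -
    (x * y + y * x) - (x * z + z * x) - 11 * (y * z + z * y)) = (3 * x - y - z) ^ 2 +
      68 * (y ^ 2 - y * z + z ^ 2) := by ring
  rw [h] at h7
  have hq : y ^ 2 - y * z + z ^ 2 ≤ 1 := by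
    have h1 : 68 * (y ^ 2 - y * z + z ^ 2) ≤ 69 := by
      nlinarith [sq_nonneg (3 * x - y - z)]
    omega
  have hz2 : 3 * z ^ 2 ≤ 4 := by nlinarith [sq_nonneg (2 * y - z)]
  have hy2 : 3 * y ^ 2 ≤ 4 := by nlinarith [sq_nonneg (2 * z - y)]
  have hz1 : -1 ≤ z ∧ z ≤ 1 := by constructor <;> nlinarith
  have hy1 : -1 ≤ y ∧ y ≤ 1 := by constructor <;> nlinarith
  have hX : (3 * x - y - z) ^ 2 ≤ 69 := by
    nlinarith [sq_nonneg (2 * y - z), sq_nonneg z]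
  have hX1 : -8 ≤ 3 * x - y - z ∧ 3 * x - y - z ≤ 8 := by
    constructor <;> nlinarith
  refine ⟨?_, hy1, hz1⟩
  constructor <;> omega

def b3 : Fin 2 → Fin 3 → ℤ := ![![1, 0, 0], ![-1, 0, 0]]
def b23 : Fin 6 → Fin 3 → ℤ := ![![0, 1, 0], ![0, 0, 1], ![1, 1, 1], ![0, -1, 0], ![0, 0, -1],
  ![-1, -1, -1]]

theorem b3_surj (v : Fin 3 → ℤ) (h : bi G2 v v = 3) : ∃ i, b3 i = v := by
  rw [biG2] at h
  obtain ⟨⟨x1, x2⟩, ⟨y1, y2⟩, z1, z2⟩ := small2 (by norm_num) h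
  rw [vec_eta v]
  generalize v 0 = x at *
  generalize v 1 = y at *
  generalize v 2 = z at *
  interval_cases x <;> interval_cases y <;> interval_cases z <;>
    first
    | exact ⟨0, rfl⟩
    | exact ⟨1, rfl⟩
    | (exfalso; revert h; decide)

theorem b23_surj (v : Fin 3 → ℤ) (h : bi G2 v v = 23) : ∃ i, b23 i = v := by
  rw [biG2] at h
  obtain ⟨⟨x1, x2⟩, ⟨y1, y2⟩, z1, z2⟩ := small2 (by norm_num) h
  rw [vec_eta v]
  generalize v 0 = x at *
  generalize v 1 = y at *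
  generalize v 2 = z at *
  interval_cases x <;> interval_cases y <;> interval_cases z <;>
    first
    | exact ⟨0, rfl⟩
    | exact ⟨1, rfl⟩
    | exact ⟨2, rfl⟩
    | exact ⟨3, rfl⟩
    | exact ⟨4, rfl⟩
    | exact ⟨5, rfl⟩
    | (exfalso; revert h; decide)

theorem card_rot1 :
    Nat.card {R : Matrix (Fin 3) (Fin 3) ℤ // Rᵀ * G1 * R = G1 ∧ R.det = 1} = 2 := by
  rw [card_rot syG1 a7 a11 a20 (by decide) (by decide) (by decide) (by decide) (by decide)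
    (by decide) a7_surj a11_surj a20_surj]
  decide +kernel

theorem card_rot2 :
    Nat.card {R : Matrix (Fin 3) (Fin 3) ℤ // Rᵀ * G2 * R = G2 ∧ R.det = 1} = 6 := by
  rw [card_rot syG2 b3 b23 b23 (by decide) (by decide) (by decide) (by decide) (by decide)
    (by decide) b3_surj b23_surj b23_surj]
  decide +kernel

/-! ### the mass formula -/

theorem exists_B {M : Matrix (Fin 3) (Fin 3) ℤ} (hM : PosF M) :
    (∃ A : Matrix (Fin 3) (Fin 3) ℤ, Aᵀ * F1 * A = M ∧ A.det = 1) ∨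
      ∃ A : Matrix (Fin 3) (Fin 3) ℤ, Aᵀ * F2 * A = M ∧ A.det = 1 := by
  obtain ⟨hs, h0, hD, hdet, e0, e1, e2⟩ := hM
  have h10 : M 1 0 = M 0 1 := congrFun (congrFun hs 0) 1
  have h20 : M 2 0 = M 0 2 := congrFun (congrFun hs 0) 2
  have h21 : M 2 1 = M 1 2 := congrFun (congrFun hs 1) 2
  have hdet' := hdet
  rw [det_fin_three, h10, h20, h21] at hdet'
  have hrep := rep_of
    (M 0 0 + (M 0 0 * M 1 1 - M 0 1 ^ 2)).toNat (M 0 0) (M 0 1) (M 0 2) (M 1 1) (M 1 2) (M 2 2)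
    h0 hD (by linarith) e0 e1 e2 (by rw [Int.toNat_of_nonneg (by linarith)])
  have main : ∀ F : Matrix (Fin 3) (Fin 3) ℤ, Sy F → F.det = 34 →
      RepF F (M 0 0) (M 0 1) (M 0 2) (M 1 1) (M 1 2) (M 2 2) →
      ∃ A : Matrix (Fin 3) (Fin 3) ℤ, Aᵀ * F * A = M ∧ A.det = 1 := by
    intro F hF hFd hr
    obtain ⟨v, w, z, h1⟩ := hr
    have hA : (cols v w z)ᵀ * F * (cols v w z) = M :=
      (gram_iff hF v w z M ⟨h10, h20, h21⟩).2 h1
    have hd2 : (cols v w z).det * (cols v w z).det = 1 := by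
      have := congrArg det hA
      rw [det_mul, det_mul, det_transpose, hdet, hFd] at this
      linarith
    rcases mul_self_eq_one_iff.1 hd2 with h | h
    · exact ⟨_, hA, h⟩
    · refine ⟨-(cols v w z), ?_, ?_⟩
      · rw [transpose_neg, Matrix.neg_mul, Matrix.neg_mul, Matrix.mul_neg, neg_neg, hA]
      · rw [det_neg, h]
        simp
  rcases hrep with h | h
  · exact Or.inl (main F1 sy1 (by decide) h)
  · exact Or.inr (main F2 sy2 (by decide) h)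

theorem adj1 : F1.adjugate = G1 := by decide
theorem adj2 : F2.adjugate = G2 := by decide

theorem exists_adj {F G M B : Matrix (Fin 3) (Fin 3) ℤ} (hFG : F.adjugate = G)
    (hB : Bᵀ * F * B = M) (hd : B.det = 1) :
    ∃ A : Matrix (Fin 3) (Fin 3) ℤ, Aᵀ * G * A = M.adjugate ∧ A.det = 1 := by
  refine ⟨B.adjugateᵀ, ?_, ?_⟩
  · rw [← hB, adjugate_mul_distrib, adjugate_mul_distrib, hFG, transpose_transpose,
      adjugate_transpose, Matrix.mul_assoc]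
  · rw [det_transpose, det_adjugate, hd]
    simp

theorem exists_A {M : Matrix (Fin 3) (Fin 3) ℤ} (hM : PosF M) :
    (∃ A : Matrix (Fin 3) (Fin 3) ℤ, Aᵀ * G1 * A = M.adjugate ∧ A.det = 1) ∨
      ∃ A : Matrix (Fin 3) (Fin 3) ℤ, Aᵀ * G2 * A = M.adjugate ∧ A.det = 1 := by
  rcases exists_B hM with ⟨B, hB, hd⟩ | ⟨B, hB, hd⟩
  · exact Or.inl (exists_adj adj1 hB hd)
  · exact Or.inr (exists_adj adj2 hB hd)

/-- the matrix `A A0⁻¹` -/
theorem quot {G G' M A A0 : Matrix (Fin 3) (Fin 3) ℤ} (hA0 : A0ᵀ * G' * A0 = M)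
    (hd0 : A0.det = 1) (hA : Aᵀ * G * A = M) :
    (A * A0⁻¹)ᵀ * G * (A * A0⁻¹) = G' := by
  have hu : IsUnit A0.det := by rw [hd0]; exact isUnit_one
  have h1 : A0 * A0⁻¹ = 1 := mul_nonsing_inv A0 hu
  have h3 : A0⁻¹ᵀ * A0ᵀ = 1 := by rw [← transpose_mul, h1, transpose_one]
  have e : (A * A0⁻¹)ᵀ * G * (A * A0⁻¹) = A0⁻¹ᵀ * (Aᵀ * G * A) * A0⁻¹ := by
    rw [transpose_mul]; simp only [Matrix.mul_assoc]
  rw [e, hA, ← hA0]
  have e2 : A0⁻¹ᵀ * (A0ᵀ * G' * A0) * A0⁻¹ = (A0⁻¹ᵀ * A0ᵀ) * G' * (A0 * A0⁻¹) := by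
    simp only [Matrix.mul_assoc]
  rw [e2, h3, h1, Matrix.one_mul, Matrix.mul_one]

theorem card_same {G M A0 : Matrix (Fin 3) (Fin 3) ℤ} (hA0 : A0ᵀ * G * A0 = M)
    (hd0 : A0.det = 1) :
    Nat.card {A : Matrix (Fin 3) (Fin 3) ℤ // Aᵀ * G * A = M ∧ A.det = 1} =
      Nat.card {R : Matrix (Fin 3) (Fin 3) ℤ // Rᵀ * G * R = G ∧ R.det = 1} := by
  have hu : IsUnit A0.det := by rw [hd0]; exact isUnit_one
  have h1 : A0 * A0⁻¹ = 1 := mul_nonsing_inv A0 hu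
  have h2 : A0⁻¹ * A0 = 1 := nonsing_inv_mul A0 hu
  have h4 : A0⁻¹.det = 1 := by
    have := congrArg det h1
    rwa [det_mul, hd0, one_mul, det_one] at this
  refine Nat.card_congr ?_
  refine ⟨fun A => ⟨A.1 * A0⁻¹, quot hA0 hd0 A.2.1, ?_⟩, fun R => ⟨R.1 * A0, ?_, ?_⟩, ?_, ?_⟩
  · rw [det_mul, A.2.2, h4, one_mul]
  · have e : (R.1 * A0)ᵀ * G * (R.1 * A0) = A0ᵀ * (R.1ᵀ * G * R.1) * A0 := by
      rw [transpose_mul]; simp only [Matrix.mul_assoc]
    rw [e, R.2.1, hA0]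
  · rw [det_mul, R.2.2, hd0, one_mul]
  · intro A
    apply Subtype.ext
    show A.1 * A0⁻¹ * A0 = A.1
    rw [Matrix.mul_assoc, h2, Matrix.mul_one]
  · intro R
    apply Subtype.ext
    show R.1 * A0 * A0⁻¹ = R.1
    rw [Matrix.mul_assoc, h1, Matrix.mul_one]

/-- the two lattices are not isometric -/
theorem no_iso {R : Matrix (Fin 3) (Fin 3) ℤ} (h : Rᵀ * G1 * R = G2) : False := by
  refine no3 (fun k => R k 0) ?_
  rw [← conj_apply, h]
  rfl

theorem not_both {M A B : Matrix (Fin 3) (Fin 3) ℤ} (hA : Aᵀ * G1 * A = M)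
    (hB : Bᵀ * G2 * B = M) (hd : B.det = 1) : False :=
  no_iso (quot hB hd hA)

/-- TORS: the mass formula for the two lattices -/
theorem t_TORS : S_TORS := by
  intro M hM
  rcases exists_A hM with ⟨A0, hA0, hd0⟩ | ⟨A0, hA0, hd0⟩
  · rw [card_same hA0 hd0, card_rot1]
    have : IsEmpty {A : Matrix (Fin 3) (Fin 3) ℤ // Aᵀ * G2 * A = M.adjugate ∧ A.det = 1} :=
      ⟨fun B => not_both hA0 B.2.1 B.2.2⟩
    rw [Nat.card_of_isEmpty]
  · rw [card_same hA0 hd0, card_rot2]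
    have : IsEmpty {A : Matrix (Fin 3) (Fin 3) ℤ // Aᵀ * G1 * A = M.adjugate ∧ A.det = 1} :=
      ⟨fun B => not_both B.2.1 hA0 hd0⟩
    rw [Nat.card_of_isEmpty]

end Pool.Agent.N816.P17
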