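import Pool.Agent.N972.P17.Defs
import Pool.Agent.Y288.Z7.Tors

/-!
The two classes of even positive definite ternary forms of determinant `34` (project P17, TORS).
-/

set_option autoImplicit false
set_option linter.all false

namespace Pool.Agent.N816.P17

open Finset Matrix
open Pool.Agent.Y288.Z7 (exists_round cols dd3 det_cols cols_eq)
open Pool.Agent.N972.P17 (G1 G2 PosF)

/-- the bilinear form of a matrix -/
def bi (F : Matrix (Fin 3) (Fin 3) ℤ) (v w : Fin 3 → ℤ) : ℤ :=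
  v 0 * (F 0 0 * w 0 + F 0 1 * w 1 + F 0 2 * w 2) + v 1 * (F 1 0 * w 0 + F 1 1 * w 1 + F 1 2 * w 2)
      + v 2 * (F 2 0 * w 0 + F 2 1 * w 1 + F 2 2 * w 2)

theorem bi_eq (F : Matrix (Fin 3) (Fin 3) ℤ) (v w : Fin 3 → ℤ) : v ⬝ᵥ (F *ᵥ w) = bi F v w := by
  simp only [bi, dotProduct, mulVec, Fin.sum_univ_three]

/-- symmetric matrices -/
def Sy (F : Matrix (Fin 3) (Fin 3) ℤ) : Prop := F 1 0 = F 0 1 ∧ F 2 0 = F 0 2 ∧ F 2 1 = F 1 2

theorem bi_comm {F : Matrix (Fin 3) (Fin 3) ℤ} (hF : Sy F) (v w : Fin 3 → ℤ) :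
    bi F v w = bi F w v := by
  obtain ⟨h1, h2, h3⟩ := hF
  simp only [bi, h1, h2, h3]; ring

theorem bi_add_smul (F : Matrix (Fin 3) (Fin 3) ℤ) (u v w : Fin 3 → ℤ) (t : ℤ) :
    bi F u (w + t • v) = bi F u w + t * bi F u v := by
  simp only [bi, Pi.add_apply, Pi.smul_apply, smul_eq_mul]; ring

theorem add_smul_bi (F : Matrix (Fin 3) (Fin 3) ℤ) (u v w : Fin 3 → ℤ) (t : ℤ) :
    bi F (w + t • v) u = bi F w u + t * bi F v u := by
  simp only [bi, Pi.add_apply, Pi.smul_apply, smul_eq_mul]; ring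

theorem bi_neg (F : Matrix (Fin 3) (Fin 3) ℤ) (u v : Fin 3 → ℤ) : bi F u (-v) = -bi F u v := by
  simp only [bi, Pi.neg_apply]; ring

theorem neg_bi (F : Matrix (Fin 3) (Fin 3) ℤ) (u v : Fin 3 → ℤ) : bi F (-u) v = -bi F u v := by
  simp only [bi, Pi.neg_apply]; ring

/-- vectors with a given Gram matrix with respect to `F` -/
def RepF (F : Matrix (Fin 3) (Fin 3) ℤ) (a b c d e f : ℤ) : Prop := ∃ v w z : Fin 3 → ℤ,
  bi F v v = a ∧ bi F v w = b ∧ bi F v z = c ∧ bi F w w = d ∧ bi F w z = e ∧ bi F z z = f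

section

variable {F : Matrix (Fin 3) (Fin 3) ℤ} (hF : Sy F)
include hF

theorem RepF.shear12 {a b c d e f : ℤ} (t : ℤ)
    (h : RepF F a (b - t * a) c (d - 2 * t * b + t ^ 2 * a) (e - t * c) f) :
    RepF F a b c d e f := by
  obtain ⟨v, w, z, h1, h2, h3, h4, h5, h6⟩ := h
  refine ⟨v, w + t • v, z, h1, ?_, h3, ?_, ?_, h6⟩
  · rw [bi_add_smul, h1, h2]; ring
  · rw [bi_add_smul, add_smul_bi, add_smul_bi, bi_comm hF w v, h1, h2, h4]; ring
  · rw [add_smul_bi, h3, h5]; ring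

theorem RepF.shear23 {a b c d e f : ℤ} (s : ℤ)
    (h : RepF F a b (c - s * b) d (e - s * d) (f - 2 * s * e + s ^ 2 * d)) :
    RepF F a b c d e f := by
  obtain ⟨v, w, z, h1, h2, h3, h4, h5, h6⟩ := h
  refine ⟨v, w, z + s • w, h1, h2, ?_, h4, ?_, ?_⟩
  · rw [bi_add_smul, h3, h2]; ring
  · rw [bi_add_smul, h4, h5]; ring
  · rw [bi_add_smul, add_smul_bi, add_smul_bi, bi_comm hF z w, h6, h5, h4]; ring

theorem RepF.swap12 {a b c d e f : ℤ} (h : RepF F d b e a c f) : RepF F a b c d e f := by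
  obtain ⟨v, w, z, h1, h2, h3, h4, h5, h6⟩ := h
  exact ⟨w, v, z, h4, by rw [bi_comm hF, h2], h5, h1, h3, h6⟩

theorem RepF.swap23 {a b c d e f : ℤ} (h : RepF F a c b f e d) : RepF F a b c d e f := by
  obtain ⟨v, w, z, h1, h2, h3, h4, h5, h6⟩ := h
  exact ⟨v, z, w, h1, h3, h2, h6, by rw [bi_comm hF, h5], h4⟩

theorem RepF.neg2 {a b c d e f : ℤ} (h : RepF F a (-b) c d (-e) f) : RepF F a b c d e f := by
  obtain ⟨v, w, z, h1, h2, h3, h4, h5, h6⟩ := h
  refine ⟨v, -w, z, h1, ?_, h3, ?_, ?_, h6⟩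
  · rw [bi_neg, h2, neg_neg]
  · rw [bi_neg, neg_bi, h4, neg_neg]
  · rw [neg_bi, h5, neg_neg]

end

/-- the first form -/
def F1 : Matrix (Fin 3) (Fin 3) ℤ := !![6, 2, 1; 2, 4, 1; 1, 1, 2]

/-- the second form -/
def F2 : Matrix (Fin 3) (Fin 3) ℤ := !![12, 1, 1; 1, 2, 1; 1, 1, 2]

theorem sy1 : Sy F1 := ⟨rfl, rfl, rfl⟩
theorem sy2 : Sy F2 := ⟨rfl, rfl, rfl⟩

/-- one of the two forms represents the matrix -/
def Rep2 (a b c d e f : ℤ) : Prop := RepF F1 a b c d e f ∨ RepF F2 a b c d e f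

theorem Rep2.shear12 {a b c d e f : ℤ} (t : ℤ)
    (h : Rep2 a (b - t * a) c (d - 2 * t * b + t ^ 2 * a) (e - t * c) f) : Rep2 a b c d e f :=
  h.imp (RepF.shear12 sy1 t) (RepF.shear12 sy2 t)

theorem Rep2.shear23 {a b c d e f : ℤ} (s : ℤ)
    (h : Rep2 a b (c - s * b) d (e - s * d) (f - 2 * s * e + s ^ 2 * d)) : Rep2 a b c d e f :=
  h.imp (RepF.shear23 sy1 s) (RepF.shear23 sy2 s)

theorem Rep2.swap12 {a b c d e f : ℤ} (h : Rep2 d b e a c f) : Rep2 a b c d e f :=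
  h.imp (RepF.swap12 sy1) (RepF.swap12 sy2)

theorem Rep2.swap23 {a b c d e f : ℤ} (h : Rep2 a c b f e d) : Rep2 a b c d e f :=
  h.imp (RepF.swap23 sy1) (RepF.swap23 sy2)

theorem Rep2.neg2 {a b c d e f : ℤ} (h : Rep2 a (-b) c d (-e) f) : Rep2 a b c d e f :=
  h.imp (RepF.neg2 sy1) (RepF.neg2 sy2)

theorem bi1 (v w : Fin 3 → ℤ) : bi F1 v w = v 0 * (6 * w 0 + 2 * w 1 + w 2) +
    v 1 * (2 * w 0 + 4 * w 1 + w 2) + v 2 * (w 0 + w 1 + 2 * w 2) := by
  have e00 : F1 0 0 = 6 := rfl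
  have e01 : F1 0 1 = 2 := rfl
  have e02 : F1 0 2 = 1 := rfl
  have e10 : F1 1 0 = 2 := rfl
  have e11 : F1 1 1 = 4 := rfl
  have e12 : F1 1 2 = 1 := rfl
  have e20 : F1 2 0 = 1 := rfl
  have e21 : F1 2 1 = 1 := rfl
  have e22 : F1 2 2 = 2 := rfl
  simp only [bi, e00, e01, e02, e10, e11, e12, e20, e21, e22]; ring

theorem bi2 (v w : Fin 3 → ℤ) : bi F2 v w = v 0 * (12 * w 0 + w 1 + w 2) +
    v 1 * (w 0 + 2 * w 1 + w 2) + v 2 * (w 0 + w 1 + 2 * w 2) := by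
  have e00 : F2 0 0 = 12 := rfl
  have e01 : F2 0 1 = 1 := rfl
  have e02 : F2 0 2 = 1 := rfl
  have e10 : F2 1 0 = 1 := rfl
  have e11 : F2 1 1 = 2 := rfl
  have e12 : F2 1 2 = 1 := rfl
  have e20 : F2 2 0 = 1 := rfl
  have e21 : F2 2 1 = 1 := rfl
  have e22 : F2 2 2 = 2 := rfl
  simp only [bi, e00, e01, e02, e10, e11, e12, e20, e21, e22]; ring

/-- the last step of the reduction, second form -/
theorem rep_base2 {c e f K : ℤ} (hK : K = 2 * e - c) (hK1 : K = 1 ∨ K = -1)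
    (hf : 3 * (2 * f - c ^ 2) = K ^ 2 + 68) : RepF F2 2 1 c 2 e f := by
  have hKK : K ^ 2 = 1 := by rcases hK1 with h | h <;> rw [h] <;> norm_num
  have hc : c = 2 * e - K := by linarith
  refine ⟨![0, 1, 0], ![0, 0, 1], ![K, e - K, 0], ?_, ?_, ?_, ?_, ?_, ?_⟩
  · simp [bi2]
  · simp [bi2]
  · simp [bi2]
    rw [hc]; ring
  · simp [bi2]
  · simp [bi2]
  · simp [bi2]
    rw [hc] at hf
    nlinarith [hf, hKK]

/-- the last step of the reduction, first form -/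
theorem rep_base1 {c e f K : ℤ} (hK : K = 2 * e - c) (hK1 : K = 3 ∨ K = -3)
    (hf : 7 * (2 * f - c ^ 2) = K ^ 2 + 68) : RepF F1 2 1 c 4 e f := by
  have hc : c = 2 * e - K := by linarith
  rcases hK1 with rfl | rfl
  · refine ⟨![0, 0, 1], ![0, 1, 0], ![1, 0, e - 2], ?_, ?_, ?_, ?_, ?_, ?_⟩
    · simp [bi1]
    · simp [bi1]
    · simp [bi1]
      rw [hc]; ring
    · simp [bi1]
    · simp [bi1]
    · simp [bi1]
      rw [hc] at hf
      nlinarith [hf]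
  · refine ⟨![0, 0, 1], ![0, 1, 0], ![-1, 0, e + 2], ?_, ?_, ?_, ?_, ?_, ?_⟩
    · simp [bi1]
    · simp [bi1]
    · simp [bi1]
      rw [hc]; ring
    · simp [bi1]
    · simp [bi1]
    · simp [bi1]
      rw [hc] at hf
      nlinarith [hf]

theorem sq_mod4 (c : ℤ) : c ^ 2 % 4 = 0 ∨ c ^ 2 % 4 = 1 := by
  rcases Int.even_or_odd' c with ⟨m, rfl | rfl⟩
  · left; ring_nf; omega
  · right; ring_nf; omega

/-- the case `b' = 1` of the last step -/
theorem rep_fin {c2 e2 f2 f3 D2 K d' : ℤ} (hf3 : f2 = 2 * f3) (hd : d' = 2 ∨ d' = 4)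
    (hD2 : D2 = 2 * d' - 1) (hK : K = 2 * e2 - c2) (hs1 : -D2 ≤ 2 * K) (hs2 : 2 * K ≤ D2)
    (hid : D2 * (2 * f2 - c2 ^ 2) = K ^ 2 + 68) : Rep2 2 1 c2 d' e2 f2 := by
  rcases hd with rfl | rfl
  · have hD3 : D2 = 3 := by rw [hD2]; norm_num
    rw [hD3] at hid hs1 hs2
    have hK1 : K = 1 ∨ K = -1 := by
      have h1 : -1 ≤ K ∧ K ≤ 1 := by constructor <;> omega
      by_contra hcon
      have h0 : K = 0 := by omega
      rw [h0] at hid
      omega
    exact Or.inr (rep_base2 hK hK1 hid)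
  · have hD3 : D2 = 7 := by rw [hD2]; norm_num
    rw [hD3] at hid hs1 hs2
    have hK1 : K = 3 ∨ K = -3 := by
      have h1 : -3 ≤ K ∧ K ≤ 3 := by constructor <;> omega
      obtain ⟨h2, h3⟩ := h1
      by_contra hcon
      have h4 : K = -2 ∨ K = -1 ∨ K = 0 ∨ K = 1 ∨ K = 2 := by omega
      rcases h4 with h | h | h | h | h <;> rw [h] at hid <;> omega
    exact Or.inl (rep_base1 hK hK1 hid)

theorem rep_of (N : ℕ) : ∀ a b c d e f : ℤ, 0 < a → 0 < a * d - b ^ 2 →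
    a * d * f + 2 * b * c * e - a * e ^ 2 - d * c ^ 2 - f * b ^ 2 = 34 →
    2 ∣ a → 2 ∣ d → 2 ∣ f →
    a + (a * d - b ^ 2) ≤ N → Rep2 a b c d e f := by
  induction N with
  | zero =>
    intro a b c d e f ha hD _ _ _ _ hN
    exfalso
    push_cast at hN
    linarith
  | succ N ih =>
    intro a b c d e f ha hD hdet hea hed hef hN
    push_cast at hN
    obtain ⟨t, ht1, ht2⟩ := exists_round b a ha
    apply Rep2.shear12 t
    obtain ⟨b', hb'⟩ : ∃ b', b' = b - t * a := ⟨_, rfl⟩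
    obtain ⟨d', hd'⟩ : ∃ d', d' = d - 2 * t * b + t ^ 2 * a := ⟨_, rfl⟩
    obtain ⟨e', he'⟩ : ∃ e', e' = e - t * c := ⟨_, rfl⟩
    rw [← hb', ← hd', ← he']
    rw [← hb'] at ht1 ht2
    have hD' : a * d' - b' ^ 2 = a * d - b ^ 2 := by rw [hd', hb']; ring
    have hdet' : a * d' * f + 2 * b' * c * e' - a * e' ^ 2 - d' * c ^ 2 - f * b' ^ 2 = 34 := by
      rw [← hdet, hd', hb', he']; ring
    have hed' : 2 ∣ d' := by
      rw [hd']
      exact dvd_add (dvd_sub hed ⟨t * b, by ring⟩) (Dvd.dvd.mul_left hea _)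
    rw [← hD'] at hD hN
    have hd'0 : 0 < d' := by
      by_contra hcon
      push Not at hcon
      nlinarith [sq_nonneg b']
    have hb2 : 4 * b' ^ 2 ≤ a ^ 2 := by nlinarith
    by_cases hlt : d' < a
    · apply Rep2.swap12
      apply ih d' b' e' a c f hd'0 (by linarith) (by linarith) hed' hea hef
      have : d' * a - b' ^ 2 = a * d' - b' ^ 2 := by ring
      rw [this]
      linarith
    push Not at hlt
    obtain ⟨D2, hD2⟩ : ∃ D2, D2 = a * d' - b' ^ 2 := ⟨_, rfl⟩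
    rw [← hD2] at hD hN
    have h34 : 3 * a ^ 2 ≤ 4 * D2 := by nlinarith
    obtain ⟨s, hs1, hs2⟩ := exists_round (a * e' - b' * c) D2 hD
    apply Rep2.shear23 s
    obtain ⟨c2, hc2⟩ : ∃ c2, c2 = c - s * b' := ⟨_, rfl⟩
    obtain ⟨e2, he2⟩ : ∃ e2, e2 = e' - s * d' := ⟨_, rfl⟩
    obtain ⟨f2, hf2⟩ : ∃ f2, f2 = f - 2 * s * e' + s ^ 2 * d' := ⟨_, rfl⟩
    rw [← hc2, ← he2, ← hf2]
    have hef2 : 2 ∣ f2 := by
      rw [hf2]
      exact dvd_add (dvd_sub hef ⟨s * e', by ring⟩) (Dvd.dvd.mul_left hed' _)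
    have hdet2 : a * d' * f2 + 2 * b' * c2 * e2 - a * e2 ^ 2 - d' * c2 ^ 2 - f2 * b' ^ 2 = 34 := by
      rw [← hdet', hc2, he2, hf2]; ring
    obtain ⟨K, hK⟩ : ∃ K, K = a * e2 - b' * c2 := ⟨_, rfl⟩
    have hK2 : K = a * e' - b' * c - s * D2 := by rw [hK, he2, hc2, hD2]; ring
    rw [← hK2] at hs1 hs2
    have hKK : 4 * K ^ 2 ≤ D2 ^ 2 := by nlinarith
    have hid : D2 * (a * f2 - c2 ^ 2) = K ^ 2 + 34 * a := by
      have : K ^ 2 + a * (a * d' * f2 + 2 * b' * c2 * e2 - a * e2 ^ 2 - d' * c2 ^ 2 - f2 * b' ^ 2) =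
          D2 * (a * f2 - c2 ^ 2) := by
        rw [hK, hD2]; ring
      rw [← this, hdet2]; ring
    have hD3 : 0 < a * f2 - c2 ^ 2 := by
      by_contra hcon
      push Not at hcon
      nlinarith [sq_nonneg K]
    by_cases hlt2 : a * f2 - c2 ^ 2 < D2
    · apply Rep2.swap23
      apply ih a c2 b' f2 e2 d' ha hD3 (by linarith) hea hef2 hed'
      linarith
    push Not at hlt2
    have h36 : D2 * D2 ≤ K ^ 2 + 34 * a := by
      rw [← hid]
      exact mul_le_mul_of_nonneg_left hlt2 hD.le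
    have h35 : 3 * (D2 * D2) ≤ 136 * a := by
      rw [pow_two D2] at hKK
      linarith
    have ha2 : a = 2 ∨ a = 4 := by
      obtain ⟨a1, ha1⟩ := hea
      by_contra hne
      have ha4 : 6 ≤ a := by omega
      have h37 : 6 * a ≤ a ^ 2 := by nlinarith
      have h38 : 9 * a ≤ 2 * D2 := by linarith
      have h39 : (9 * a) * (9 * a) ≤ (2 * D2) * (2 * D2) := mul_self_le_mul_self (by linarith) h38
      nlinarith
    obtain ⟨d1, hd1⟩ := hed'
    obtain ⟨f3, hf3⟩ := hef2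
    have hq := sq_mod4 c2
    rcases ha2 with ha2 | ha2
    · subst ha2
      have hD2b : D2 ≤ 9 := by
        by_contra hcon
        push Not at hcon
        nlinarith
      have hb1 : b' = -1 ∨ b' = 0 ∨ b' = 1 := by omega
      have hd2 : d' = 2 ∨ d' = 4 := by
        rcases hb1 with h | h | h <;> rw [h] at hD2 <;> omega
      rcases hb1 with h | h | h
      · rw [h] at hD2 hK ⊢
        apply Rep2.neg2
        exact rep_fin (K := -K) (D2 := D2) hf3 hd2 (by rw [hD2]; ring) (by rw [hK]; ring)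
          (by linarith) (by linarith) (by rw [hid]; ring)
      · exfalso
        rw [h] at hD2 hK
        have hK3 : K = 2 * e2 := by rw [hK]; ring
        obtain ⟨q, hqq⟩ : ∃ q, q = c2 ^ 2 := ⟨_, rfl⟩
        rw [← hqq] at hq hid
        rcases hd2 with h0 | h0
        · have hD2' : D2 = 4 := by rw [hD2, h0]; norm_num
          rw [hD2'] at hid hs1 hs2
          have he3 : e2 = -1 ∨ e2 = 0 ∨ e2 = 1 := by omega
          rw [hf3, hK3] at hid
          rcases he3 with h1 | h1 | h1 <;> rw [h1] at hid <;> omega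
        · have hD2' : D2 = 8 := by rw [hD2, h0]; norm_num
          rw [hD2'] at hid hs1 hs2
          have he3 : e2 = -2 ∨ e2 = -1 ∨ e2 = 0 ∨ e2 = 1 ∨ e2 = 2 := by omega
          rw [hf3, hK3] at hid
          rcases he3 with h1 | h1 | h1 | h1 | h1 <;> rw [h1] at hid <;> omega
      · rw [h] at hD2 hK ⊢
        exact rep_fin (K := K) (D2 := D2) hf3 hd2 (by rw [hD2]; ring) (by rw [hK]; ring)
          (by linarith) (by linarith) (by rw [hid]; ring)
    · exfalso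
      subst ha2
      have hD2b : D2 ≤ 13 := by
        by_contra hcon
        push Not at hcon
        nlinarith
      have hb1 : b' = -2 ∨ b' = -1 ∨ b' = 0 ∨ b' = 1 ∨ b' = 2 := by omega
      have hD2' : D2 = 12 := by
        rcases hb1 with h | h | h | h | h <;> rw [h] at hD2 <;> omega
      rw [hD2'] at hid hs1 hs2
      have hK3 : K = -6 ∨ K = -5 ∨ K = -4 ∨ K = -3 ∨ K = -2 ∨ K = -1 ∨ K = 0 ∨ K = 1 ∨ K = 2 ∨
        K = 3 ∨ K = 4 ∨ K = 5 ∨ K = 6 := by omega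
      generalize 4 * f2 - c2 ^ 2 = z at hid
      rcases hK3 with h | h | h | h | h | h | h | h | h | h | h | h | h <;> rw [h] at hid <;> omega

end Pool.Agent.N816.P17
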